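import Mathlib
import Pool.Agent.Lib.MP_09b6ec_lc.Group
import Pool.Agent.Lib.MP_09b6ec_lc.CM

/-!
# Non-isogenous consecutive fibres: families of degree at most one with a point of order two

`A`, `B` are polynomials of degree at most one over the prime field with `p > 5` elements, the
`j`-invariant of `y ^ 2 = x ^ 3 + A(l) x + B(l)` is not constant and the cubic has a root in the
field of rational functions. Three explicit parameters have pairwise different point counts: if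
`p` is not `1` modulo `8` these counts are in three different classes (2 modulo 4, 4 modulo 8,
0 modulo 8), and if `p` is `1` modulo `8` the three fibres have complex multiplication by the
square roots of `-1`, `-2` and `-3`. At most two parameters are bad, so two of the three
lie in one arc of the circle of residues without bad parameters, and bisection with point counts
finds two consecutive good fibres with different counts.
-/

namespace Pool.Agent.Results.MP_09b6ec_lc.DegreeOneTwoTorsion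

open Polynomial Pool.Agent.Lib.IsoFib

/-- Bisection. `bisect f k lo v hi`, called with `f lo = v` and `f hi ≠ v`, halves the interval
from `lo` to `hi` at most `k` times, keeping these two properties of its end points. It returns the
last left end point and the number of values of `f` it has asked for. -/
def bisect (f : ℕ → ℤ) : ℕ → ℕ → ℤ → ℕ → ℕ × ℕ
  | 0, lo, _, _ => (lo, 0)
  | k + 1, lo, v, hi =>
    if hi ≤ lo + 1 then (lo, 0)
    else if f ((lo + hi) / 2) = v then
      ((bisect f k ((lo + hi) / 2) v hi).1, (bisect f k ((lo + hi) / 2) v hi).2 + 1)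
    else ((bisect f k lo v ((lo + hi) / 2)).1, (bisect f k lo v ((lo + hi) / 2)).2 + 1)

theorem bisect_spec (f : ℕ → ℤ) (v : ℤ) : ∀ (k lo hi : ℕ), lo < hi → hi ≤ lo + 2 ^ k →
    f lo = v → f hi ≠ v →
    lo ≤ (bisect f k lo v hi).1 ∧ (bisect f k lo v hi).1 < hi ∧
      f (bisect f k lo v hi).1 = v ∧ f ((bisect f k lo v hi).1 + 1) ≠ v ∧
      (bisect f k lo v hi).2 ≤ k := by
  intro k
  induction k with
  | zero =>
    intro lo hi h1 h2 h3 h4
    have : hi = lo + 1 := by simp at h2; omega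
    subst this
    simp [bisect, h3, h4]
  | succ k ih =>
    intro lo hi h1 h2 h3 h4
    rw [bisect]
    split_ifs with h5 h6
    · have : hi = lo + 1 := by omega
      subst this
      simp [h3, h4]
    · rw [pow_succ] at h2
      obtain ⟨a1, a2, a3, a4, a5⟩ := ih ((lo + hi) / 2) hi (by omega) (by omega) h6 h4
      refine ⟨by dsimp only; omega, a2, a3, a4, by dsimp only; omega⟩
    · rw [pow_succ] at h2
      obtain ⟨a1, a2, a3, a4, a5⟩ := ih lo ((lo + hi) / 2) (by omega) (by omega) h3 h6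
      refine ⟨a1, by dsimp only; omega, a3, a4, by dsimp only; omega⟩

/-- Two of the three numbers `u1`, `u2`, `u3` on the same side of `w`, in increasing order. -/
def pick (w u1 u2 u3 : ℕ) : ℕ × ℕ :=
  if (u1 < w ↔ u2 < w) then (min u1 u2, max u1 u2)
  else if (u1 < w ↔ u3 < w) then (min u1 u3, max u1 u3)
  else (min u2 u3, max u2 u3)

theorem pick_spec {P : ℕ → Prop} {w u1 u2 u3 : ℕ} (N : ℕ → ℤ) (h12 : N u1 ≠ N u2)
    (h13 : N u1 ≠ N u3) (h23 : N u2 ≠ N u3) (p1 : P u1) (p2 : P u2) (p3 : P u3) :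
    (pick w u1 u2 u3).1 < (pick w u1 u2 u3).2 ∧ P (pick w u1 u2 u3).1 ∧
      P (pick w u1 u2 u3).2 ∧
      ((pick w u1 u2 u3).1 < w ↔ (pick w u1 u2 u3).2 < w) ∧
      N (pick w u1 u2 u3).1 ≠ N (pick w u1 u2 u3).2 := by
  have key : ∀ u v : ℕ, N u ≠ N v → P u → P v → (u < w ↔ v < w) →
      min u v < max u v ∧ P (min u v) ∧ P (max u v) ∧ (min u v < w ↔ max u v < w) ∧
      N (min u v) ≠ N (max u v) := by
    intro u v h hu hv hw
    have huv : u ≠ v := fun h' => h (by rw [h'])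
    rcases lt_or_gt_of_ne huv with h1 | h1
    · rw [min_eq_left h1.le, max_eq_right h1.le]
      exact ⟨h1, hu, hv, hw, h⟩
    · rw [min_eq_right h1.le, max_eq_left h1.le]
      exact ⟨h1, hv, hu, hw.symm, h.symm⟩
  unfold pick
  split_ifs with a b
  · exact key _ _ h12 p1 p2 a
  · exact key _ _ h13 p1 p3 b
  · exact key _ _ h23 p2 p3 (by tauto)
variable {p : ℕ} [Fact p.Prime]

/-- The number of points over the field with `p` elements of the fibre
`y ^ 2 = x ^ 3 + A(l) x + B(l)`, the point at infinity included. -/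
noncomputable def points (A B : (ZMod p)[X]) (l : ZMod p) : ℕ :=
  Nat.card {P : ZMod p × ZMod p // P.2 ^ 2 = P.1 ^ 3 + A.eval l * P.1 + B.eval l} + 1

/-- The fibre at `l` is an elliptic curve. -/
def Smooth (A B : (ZMod p)[X]) (l : ZMod p) : Prop :=
  4 * A.eval l ^ 3 + 27 * B.eval l ^ 2 ≠ 0

/-- The `j`-invariant `6912 A ^ 3 / (4 A ^ 3 + 27 B ^ 2)` of the family is defined and is not a
constant rational function. -/
def NonconstantJ (A B : (ZMod p)[X]) : Prop :=
  4 * A ^ 3 + 27 * B ^ 2 ≠ 0 ∧ ∀ c : ZMod p, 6912 * A ^ 3 ≠ C c * (4 * A ^ 3 + 27 * B ^ 2)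

/-- The family has a point of order two over the field of rational functions. -/
def TwoTorsion (A B : (ZMod p)[X]) : Prop :=
  ∃ T : RatFunc (ZMod p), T ^ 3 + algebraMap (ZMod p)[X] (RatFunc (ZMod p)) A * T +
    algebraMap (ZMod p)[X] (RatFunc (ZMod p)) B = 0

/-- The procedure. It reads `p` and the coefficients of `A` and `B`. It returns a parameter and the
number of calls it has made, a call being the value of a Jacobi symbol of a natural number at `p`
or the value of `points A B` at one parameter.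

* `t` is the `x`-coordinate of the point of order two (a constant).
* If `p % 4 = 3`, then `x` is a nonsquare with `x - 1` a square: `x = 2` if `p % 8 = 3`, found by
  bisection with Jacobi symbols between `1` and `p - 1` if `p % 8 = 7`.
* `c₁`, `c₂`, `c₃` are the values of `3 t ^ 2 + A(l)` at three parameters `l` whose counts are
  pairwise different. If `p % 8 = 1`, the three fibres have `j = 1728`, `8000`, `0`.
* `β` and `β + w` are the two bad parameters, the three good ones are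
  `β + (c₁ / a).val`, `β + (c₂ / a).val` and `β + (c₃ / a).val` with `a` the leading coefficient
  of `A`. Two of them, `β + q.1` and `β + q.2`, are not separated by bad parameters.
* The last bisection looks for a change of the count between `β + q.1` and `β + q.2`. -/
noncomputable def find (A B : (ZMod p)[X]) : ZMod p × ℕ :=
  let t : ZMod p := -(B.coeff 1) / A.coeff 1
  let s : ℕ × ℕ := if p % 8 = 7 then
    bisect (fun k => jacobiSym k p) (Nat.log 2 p + 1) 1 1 (p - 1) else (1, 0)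
  let x : ZMod p := (s.1 + 1 : ℕ)
  let c₁ : ZMod p := if p % 4 = 3 then (3 * t) ^ 2 * x / 4
    else if p % 8 = 5 then -(3 * t) ^ 2 / 32 else 2 * t ^ 2
  let c₂ : ZMod p := if p % 4 = 3 then x * (3 * t) ^ 2 / (1 + x) ^ 2
    else if p % 8 = 5 then 144 * (3 * t) ^ 2 / 625 else (3 * t) ^ 2 / 8
  let c₃ : ZMod p := if p % 4 = 3 then 225 * (3 * t) ^ 2 / 1156
    else if p % 8 = 5 then -9 * (3 * t) ^ 2 / 64 else 3 * t ^ 2
  let β : ZMod p := (-(3 * t ^ 2) - A.coeff 0) / A.coeff 1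
  let w : ℕ := ((3 * t) ^ 2 / (4 * A.coeff 1)).val
  let q : ℕ × ℕ := pick w (c₁ / A.coeff 1).val (c₂ / A.coeff 1).val (c₃ / A.coeff 1).val
  let N : ℕ → ℤ := fun k => points A B (β + k)
  let r : ℕ × ℕ := bisect N (Nat.log 2 p + 1) q.1 (N q.1) q.2
  (β + r.1, s.2 + (r.2 + 1))

/-- the linear data of a family of degree at most one with a point of order two -/
theorem linear_data {A B : (ZMod p)[X]} (hA : A.natDegree ≤ 1) (hB : B.natDegree ≤ 1)
    (hj : NonconstantJ A B) (hT : TwoTorsion A B) :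
    ∃ a0 a1 t : ZMod p, a1 ≠ 0 ∧ t ≠ 0 ∧ A = C a0 + C a1 * X ∧
      B = C (-t ^ 3 - a0 * t) + C (-(a1 * t)) * X := by
  obtain ⟨T, hT⟩ := hT
  have hint : IsIntegral (ZMod p)[X] T := by
    refine ⟨X ^ 3 + C A * X + C B, ?_, ?_⟩
    · monicity!
    · simpa [eval₂_add, eval₂_mul] using hT
  obtain ⟨S, rfl⟩ := IsIntegrallyClosed.algebraMap_eq_of_integral hint
  have hS : S ^ 3 + A * S + B = 0 := by
    apply IsFractionRing.injective (ZMod p)[X] (RatFunc (ZMod p))
    simpa using hT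
  have hdeg : S.natDegree = 0 := by
    by_contra h0
    have h1 : (S ^ 3).natDegree = 3 * S.natDegree := natDegree_pow S 3
    have h2 : (A * S + B).natDegree ≤ S.natDegree + 1 := by
      refine (natDegree_add_le _ _).trans (max_le ?_ (by omega))
      exact natDegree_mul_le.trans (by omega)
    have h3 : S ^ 3 = -(A * S + B) := by linear_combination hS
    rw [h3, natDegree_neg] at h1
    omega
  obtain ⟨t, ht⟩ := natDegree_eq_zero.mp hdeg
  have hA' := Polynomial.exists_eq_X_add_C_of_natDegree_le_one hA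
  have hB' := Polynomial.exists_eq_X_add_C_of_natDegree_le_one hB
  obtain ⟨a1, a0, rfl⟩ := hA'
  obtain ⟨b1, b0, rfl⟩ := hB'
  subst ht
  have c0 : t ^ 3 + a0 * t + b0 = 0 := by
    have := congrArg (eval 0) hS
    simpa using this
  have c1 : a1 * t + b1 = 0 := by
    have := congrArg (eval 1) hS
    simp only [eval_add, eval_mul, eval_pow, eval_C, eval_X, mul_one, eval_zero] at this
    linear_combination this - c0
  have ha1 : a1 ≠ 0 := by
    rintro rfl
    have hb1 : b1 = 0 := by linear_combination c1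
    subst hb1
    obtain ⟨h1, h2⟩ := hj
    have h3 : 4 * a0 ^ 3 + 27 * b0 ^ 2 ≠ 0 := by
      intro h
      apply h1
      have := congrArg (C : ZMod p → (ZMod p)[X]) h
      simp only [map_add, map_mul, map_pow, map_ofNat, map_zero] at this
      simp only [map_zero, zero_mul, zero_add]
      exact this
    apply h2 (6912 * a0 ^ 3 / (4 * a0 ^ 3 + 27 * b0 ^ 2))
    have h4 : 6912 * a0 ^ 3 =
        (6912 * a0 ^ 3 / (4 * a0 ^ 3 + 27 * b0 ^ 2)) * (4 * a0 ^ 3 + 27 * b0 ^ 2) := by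
      rw [div_mul_cancel₀ _ h3]
    have := congrArg (C : ZMod p → (ZMod p)[X]) h4
    rw [map_mul C (6912 * a0 ^ 3 / (4 * a0 ^ 3 + 27 * b0 ^ 2))] at this
    simp only [map_add, map_mul C (6912 : ZMod p), map_mul C (4 : ZMod p),
      map_mul C (27 : ZMod p), map_pow, map_ofNat] at this
    simp only [map_zero, zero_mul, zero_add]
    exact this
  have ht0 : t ≠ 0 := by
    rintro rfl
    have hb0 : b0 = 0 := by linear_combination c0
    have hb1 : b1 = 0 := by linear_combination c1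
    subst hb0 hb1
    obtain ⟨h1, h2⟩ := hj
    apply h2 1728
    simp only [map_zero, zero_mul, map_ofNat, add_zero]
    ring
  refine ⟨a0, a1, t, ha1, ht0, by ring, ?_⟩
  have e0 : b0 = -t ^ 3 - a0 * t := by linear_combination c0
  have e1 : b1 = -(a1 * t) := by linear_combination c1
  rw [e0, e1]
  ring


theorem cast_ne {q : ℕ} (hq : q.Prime) (h : q ≠ p) : (q : ZMod p) ≠ 0 := by
  intro h0
  rw [ZMod.natCast_eq_zero_iff] at h0
  exact h ((Nat.prime_dvd_prime_iff_eq (Fact.out : p.Prime) hq).mp h0).symm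

theorem fib {a0 a1 t : ZMod p} (h1 : a1 ≠ 0) (c : ZMod p) :
    (C a0 + C a1 * X : (ZMod p)[X]).eval ((-(3 * t ^ 2) - a0) / a1 + c / a1) = c - 3 * t ^ 2 ∧
    (C (-t ^ 3 - a0 * t) + C (-(a1 * t)) * X : (ZMod p)[X]).eval
      ((-(3 * t ^ 2) - a0) / a1 + c / a1) = -t ^ 3 - (c - 3 * t ^ 2) * t := by
  constructor
  · simp only [eval_add, eval_mul, eval_C, eval_X]
    field_simp
    ring
  · simp only [eval_add, eval_mul, eval_C, eval_X]
    field_simp
    ring

/-- the choice of x for p = 3 mod 4 -/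
theorem x_ok (h5 : 5 < p) (h4 : p % 4 = 3) {s : ℕ × ℕ}
    (hs : s = if p % 8 = 7 then
      bisect (fun k => jacobiSym k p) (Nat.log 2 p + 1) 1 1 (p - 1) else (1, 0)) :
    ¬ IsSquare ((s.1 + 1 : ℕ) : ZMod p) ∧ IsSquare (((s.1 + 1 : ℕ) : ZMod p) - 1) ∧
      1 + ((s.1 + 1 : ℕ) : ZMod p) ≠ 0 ∧ s.2 ≤ Nat.log 2 p + 1 := by
  have hp : p.Prime := Fact.out
  have hp2 : p ≠ 2 := by omega
  by_cases h8 : p % 8 = 7
  · rw [if_pos h8] at hs
    have hm1 : ¬ IsSquare (-1 : ZMod p) := by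
      rw [ZMod.exists_sq_eq_neg_one_iff]
      omega
    have hf : ∀ k : ℕ, (fun k : ℕ => jacobiSym k p) k = legendreSym p k := by
      intro k
      exact (jacobiSym.legendreSym.to_jacobiSym p k).symm
    have h1 : (fun k : ℕ => jacobiSym k p) 1 = 1 := by
      simp
    have h2 : (fun k : ℕ => jacobiSym k p) (p - 1) ≠ 1 := by
      rw [hf]
      have hne : (((p - 1 : ℕ) : ℤ) : ZMod p) = -1 := by
        have : ((p - 1 : ℕ) : ZMod p) = -1 := by
          rw [Nat.cast_sub hp.one_lt.le]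
          simp
        exact_mod_cast this
      intro h
      rw [legendreSym.eq_one_iff p (by rw [hne]; simp)] at h
      rw [hne] at h
      exact hm1 h
    have h3 : p - 1 ≤ 1 + 2 ^ (Nat.log 2 p + 1) := by
      have := Nat.lt_pow_succ_log_self (b := 2) one_lt_two p
      rw [Nat.succ_eq_add_one] at this
      omega
    obtain ⟨a1, a2, a3, a4, a5⟩ := bisect_spec (fun k : ℕ => jacobiSym k p) 1
      (Nat.log 2 p + 1) 1 (p - 1) (by omega) h3 h1 h2
    rw [← hs] at a1 a2 a3 a4 a5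
    rw [← jacobiSym.legendreSym.to_jacobiSym] at a3 a4
    have hz1 : ((s.1 : ℤ) : ZMod p) ≠ 0 := by
      intro h
      have : ((s.1 : ℕ) : ZMod p) = 0 := by exact_mod_cast h
      rw [ZMod.natCast_eq_zero_iff] at this
      exact absurd (Nat.le_of_dvd (by omega) this) (by omega)
    have hz2 : (((s.1 + 1 : ℕ) : ℤ) : ZMod p) ≠ 0 := by
      intro h
      have : ((s.1 + 1 : ℕ) : ZMod p) = 0 := by exact_mod_cast h
      rw [ZMod.natCast_eq_zero_iff] at this
      exact absurd (Nat.le_of_dvd (by omega) this) (by omega)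
    rw [legendreSym.eq_one_iff p hz1] at a3
    have a4' : ¬ IsSquare (((s.1 + 1 : ℕ) : ℤ) : ZMod p) := by
      intro h
      exact a4 ((legendreSym.eq_one_iff p hz2).mpr h)
    have e1 : (((s.1 + 1 : ℕ) : ℤ) : ZMod p) = ((s.1 + 1 : ℕ) : ZMod p) := by norm_cast
    have e2 : ((s.1 + 1 : ℕ) : ZMod p) - 1 = ((s.1 : ℤ) : ZMod p) := by push_cast; ring
    rw [e1] at a4'
    refine ⟨a4', by rw [e2]; exact a3, ?_, a5⟩
    intro h
    have e3 : ((s.1 + 1 : ℕ) : ZMod p) - 1 = -2 := by linear_combination h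
    have h7 : IsSquare (-2 : ZMod p) := by
      rw [← e3, e2]
      exact a3
    rw [ZMod.exists_sq_eq_neg_two_iff hp2] at h7
    omega
  · rw [if_neg h8] at hs
    subst hs
    have e1 : (((1 : ℕ) + 1 : ℕ) : ZMod p) = 2 := by norm_num
    dsimp only
    rw [e1]
    refine ⟨?_, ⟨1, by ring⟩, ?_, by omega⟩
    · rw [ZMod.exists_sq_eq_two_iff hp2]
      omega
    · have := cast_ne (p := p) Nat.prime_three (by omega)
      intro h
      apply this
      push_cast
      linear_combination h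

/-- for p = 5 mod 8 the number 2 is a nonsquare -/
theorem two_ok (h5 : 5 < p) (h8 : p % 8 = 5) :
    ¬ IsSquare (2 : ZMod p) ∧ (2 : ZMod p) ^ 2 + 1 ≠ 0 := by
  have hp2 : p ≠ 2 := by omega
  constructor
  · rw [ZMod.exists_sq_eq_two_iff hp2]
    omega
  · have := cast_ne (p := p) Nat.prime_five (by omega)
    intro h
    apply this
    push_cast
    linear_combination h

/-- the trace of the fibre `c` -/
theorem K_eq (h2 : p ≠ 2) (t c : ZMod p) :
    (K t c : ℤ) = p + 1 + ∑ x : ZMod p,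
      quadraticChar (ZMod p) ((x - t) * ((x - t) ^ 2 + 3 * t * (x - t) + c)) := by
  unfold K cnt
  push_cast
  rw [CM.card_curve h2 (fun x => x ^ 3 + (c - 3 * t ^ 2) * x + (-t ^ 3 - (c - 3 * t ^ 2) * t))]
  have : ∀ x : ZMod p, x ^ 3 + (c - 3 * t ^ 2) * x + (-t ^ 3 - (c - 3 * t ^ 2) * t) =
      (x - t) * ((x - t) ^ 2 + 3 * t * (x - t) + c) := by
    intro x
    ring
  simp only [this]
  ring

/-- the fibre with j = 1728 -/
theorem K_one (h2 : p ≠ 2) (t : ZMod p) : (K t (2 * t ^ 2) : ℤ) = p + 1 + CM.T p (-t ^ 2) := by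
  rw [K_eq h2]
  congr 1
  unfold CM.T
  apply Finset.sum_congr rfl
  intro x _
  congr 1
  ring

/-- the fibre with j = 0 -/
theorem K_three (h2 : p ≠ 2) (t : ZMod p) : (K t (3 * t ^ 2) : ℤ) = p + 1 + CM.U p (-t ^ 3) := by
  rw [K_eq h2]
  congr 1
  unfold CM.U
  apply Finset.sum_congr rfl
  intro x _
  congr 1
  ring

/-- the fibre with j = 8000 -/
theorem K_two (h5 : 5 < p) {t : ZMod p} (ht : t ≠ 0) :
    ((K t ((3 * t) ^ 2 / 8) : ℤ) - (p + 1)) ^ 2 = CM.B p ^ 2 := by
  have h2 : p ≠ 2 := by omega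
  have h2' : (2 : ZMod p) ≠ 0 := by exact_mod_cast cast_ne (p := p) Nat.prime_two (by omega)
  have h3' : (3 : ZMod p) ≠ 0 := by exact_mod_cast cast_ne (p := p) Nat.prime_three (by omega)
  have h4' : (4 : ZMod p) ≠ 0 := by
    have : (4 : ZMod p) = 2 * 2 := by norm_num
    rw [this]
    exact mul_ne_zero h2' h2'
  have h8' : (8 : ZMod p) ≠ 0 := by
    have : (8 : ZMod p) = 2 * 4 := by norm_num
    rw [this]
    exact mul_ne_zero h2' h4'
  have hm : -(3 * t) / 4 ≠ 0 := div_ne_zero (neg_ne_zero.mpr (mul_ne_zero h3' ht)) h4'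
  rw [K_eq h2]
  have e1 : (p : ℤ) + 1 + ∑ x : ZMod p,
      quadraticChar (ZMod p) ((x - t) * ((x - t) ^ 2 + 3 * t * (x - t) + (3 * t) ^ 2 / 8)) -
        (p + 1) = ∑ x : ZMod p,
      quadraticChar (ZMod p) ((x - t) * ((x - t) ^ 2 + 3 * t * (x - t) + (3 * t) ^ 2 / 8)) := by
    ring
  rw [e1, CM.sum_affine hm (t - (3 * t) / 2)
    (fun x => (x - t) * ((x - t) ^ 2 + 3 * t * (x - t) + (3 * t) ^ 2 / 8))]
  have e2 : ∀ x : ZMod p, (-(3 * t) / 4 * x + (t - (3 * t) / 2) - t) *
      ((-(3 * t) / 4 * x + (t - (3 * t) / 2) - t) ^ 2 +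
        3 * t * (-(3 * t) / 4 * x + (t - (3 * t) / 2) - t) + (3 * t) ^ 2 / 8) =
      (-(3 * t) / 4) ^ 3 * ((x + 2) * (x ^ 2 - 2)) := by
    intro x
    field_simp
    ring
  simp only [e2]
  rw [CM.sum_const_sq (pow_ne_zero 3 hm) (fun x => (x + 2) * (x ^ 2 - 2))]
  rfl

theorem find_spec (h5 : 5 < p) {A B : (ZMod p)[X]} (hA : A.natDegree ≤ 1)
    (hB : B.natDegree ≤ 1) (hj : NonconstantJ A B) (hT : TwoTorsion A B) :
    Smooth A B (find A B).1 ∧ Smooth A B ((find A B).1 + 1) ∧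
      points A B (find A B).1 ≠ points A B ((find A B).1 + 1) ∧
      (find A B).2 ≤ 2 * Nat.log 2 p + 3 := by
  have hp : p.Prime := Fact.out
  obtain ⟨a0, a1, t, ha1, ht, hAe, hBe⟩ := linear_data hA hB hj hT
  have cA0 : A.coeff 0 = a0 := by rw [hAe]; simp
  have cA1 : A.coeff 1 = a1 := by rw [hAe]; simp
  have cB1 : B.coeff 1 = -(a1 * t) := by
    rw [hBe, coeff_add, coeff_C_mul, coeff_X_one, coeff_C, if_neg one_ne_zero]
    ring
  have ht' : -(B.coeff 1) / a1 = t := by
    rw [cB1]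
    field_simp
  have hpts : ∀ c : ZMod p, points A B ((-(3 * t ^ 2) - a0) / a1 + c / a1) = K t c := by
    intro c
    obtain ⟨f1, f2⟩ := fib (a0 := a0) (t := t) ha1 c
    unfold points K cnt
    rw [hAe, hBe, f1, f2]
  have hsm : ∀ c : ZMod p, c ≠ 0 → 9 * t ^ 2 - 4 * c ≠ 0 →
      Smooth A B ((-(3 * t ^ 2) - a0) / a1 + c / a1) := by
    intro c h1 h2
    obtain ⟨f1, f2⟩ := fib (a0 := a0) (t := t) ha1 c
    unfold Smooth
    rw [hAe, hBe, f1, f2]
    exact ns_c h1 h2
  obtain ⟨s, hs⟩ : ∃ s : ℕ × ℕ, s = if p % 8 = 7 then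
    bisect (fun k => jacobiSym k p) (Nat.log 2 p + 1) 1 1 (p - 1) else (1, 0) := ⟨_, rfl⟩
  obtain ⟨x, hx⟩ : ∃ x : ZMod p, x = (s.1 + 1 : ℕ) := ⟨_, rfl⟩
  obtain ⟨c₁, hc₁⟩ : ∃ c₁ : ZMod p, c₁ = if p % 4 = 3 then (3 * t) ^ 2 * x / 4
    else if p % 8 = 5 then -(3 * t) ^ 2 / 32 else 2 * t ^ 2 := ⟨_, rfl⟩
  obtain ⟨c₂, hc₂⟩ : ∃ c₂ : ZMod p, c₂ = if p % 4 = 3 then x * (3 * t) ^ 2 / (1 + x) ^ 2
    else if p % 8 = 5 then 144 * (3 * t) ^ 2 / 625 else (3 * t) ^ 2 / 8 := ⟨_, rfl⟩
  obtain ⟨c₃, hc₃⟩ : ∃ c₃ : ZMod p, c₃ = if p % 4 = 3 then 225 * (3 * t) ^ 2 / 1156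
    else if p % 8 = 5 then -9 * (3 * t) ^ 2 / 64 else 3 * t ^ 2 := ⟨_, rfl⟩
  obtain ⟨β, hβ⟩ : ∃ β : ZMod p, β = (-(3 * t ^ 2) - a0) / a1 := ⟨_, rfl⟩
  obtain ⟨w, hw⟩ : ∃ w : ℕ, w = ((3 * t) ^ 2 / (4 * a1)).val := ⟨_, rfl⟩
  obtain ⟨q, hq⟩ : ∃ q : ℕ × ℕ, q = pick w (c₁ / a1).val (c₂ / a1).val (c₃ / a1).val :=
    ⟨_, rfl⟩
  obtain ⟨N, hN⟩ : ∃ N : ℕ → ℤ, N = fun k : ℕ => (points A B (β + (k : ZMod p)) : ℤ) :=
    ⟨_, rfl⟩
  obtain ⟨r, hr⟩ : ∃ r : ℕ × ℕ, r = bisect N (Nat.log 2 p + 1) q.1 (N q.1) q.2 := ⟨_, rfl⟩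
  have hfind : find A B = (β + r.1, s.2 + (r.2 + 1)) := by
    rw [hr, hN, hq, hw, hβ, hc₁, hc₂, hc₃, hx, hs]
    unfold find
    simp only [ht', cA0, cA1]
  -- the three fibres
  have h2 : (2 : ZMod p) ≠ 0 := by exact_mod_cast cast_ne (p := p) Nat.prime_two (by omega)
  have h3 : (3 : ZMod p) ≠ 0 := by exact_mod_cast cast_ne (p := p) Nat.prime_three (by omega)
  have h5' : (5 : ZMod p) ≠ 0 := by exact_mod_cast cast_ne (p := p) Nat.prime_five (by omega)
  have h44 : p % 4 = 1 ∨ p % 4 = 3 := by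
    have := hp.eq_two_or_odd
    omega
  have hcls : ((c₁ ≠ 0 ∧ 9 * t ^ 2 - 4 * c₁ ≠ 0) ∧ (c₂ ≠ 0 ∧ 9 * t ^ 2 - 4 * c₂ ≠ 0) ∧
      (c₃ ≠ 0 ∧ 9 * t ^ 2 - 4 * c₃ ≠ 0)) ∧
      K t c₁ ≠ K t c₂ ∧ K t c₁ ≠ K t c₃ ∧ K t c₂ ≠ K t c₃ ∧ s.2 ≤ Nat.log 2 p + 1 := by
    rcases h44 with h4 | h4
    · have h43 : p % 4 ≠ 3 := by omega
      rw [if_neg h43] at hc₁ hc₂ hc₃
      have hs2 : s.2 ≤ Nat.log 2 p + 1 := by
        rw [hs, if_neg (by omega)]
        omega
      by_cases h8 : p % 8 = 5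
      · rw [if_pos h8] at hc₁ hc₂ hc₃
        obtain ⟨m1, m2⟩ := two_ok h5 h8
        have hi : IsSquare (-1 : ZMod p) := by
          rw [ZMod.exists_sq_eq_neg_one_iff]
          exact h43
        have h7 : (7 : ZMod p) ≠ 0 := by
          exact_mod_cast cast_ne (p := p) (by norm_num : Nat.Prime 7) (by omega)
        obtain ⟨k1, k2⟩ := one_mod h2 h3 h5' h7 hi ht m1 m2
        have f1 : -(3 * t * (2 - 1)) ^ 2 / (16 * 2) = c₁ := by
          rw [hc₁]
          norm_num
        have f3 : -(3 * t * (2 ^ 2 - 1)) ^ 2 / (16 * 2 ^ 2) = c₃ := by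
          rw [hc₃]
          norm_num
          ring
        rw [f1] at k1
        rw [← hc₂, f3] at k2
        have e1 := k1.2.2
        rcases k2 with ⟨k2, k3⟩ | ⟨k2, k3⟩
        · have e2 := k2.2.2
          have e3 := k3.2.2
          exact ⟨⟨⟨k1.1, k1.2.1⟩, ⟨k2.1, k2.2.1⟩, ⟨k3.1, k3.2.1⟩⟩, by omega, by omega, by omega,
            hs2⟩
        · have e2 := k2.2.2
          have e3 := k3.2.2
          exact ⟨⟨⟨k1.1, k1.2.1⟩, ⟨k2.1, k2.2.1⟩, ⟨k3.1, k3.2.1⟩⟩, by omega, by omega, by omega,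
            hs2⟩
      · rw [if_neg h8] at hc₁ hc₂ hc₃
        have h81 : p % 8 = 1 := by omega
        have hp2 : p ≠ 2 := by omega
        have ht2 : t ^ 2 ≠ 0 := pow_ne_zero 2 ht
        have h8' : (8 : ZMod p) ≠ 0 := by
          have : (8 : ZMod p) = 2 ^ 3 := by norm_num
          rw [this]
          exact pow_ne_zero 3 h2
        have a1 : -t ^ 2 ≠ 0 := neg_ne_zero.mpr ht2
        have a3 : -t ^ 3 ≠ 0 := neg_ne_zero.mpr (pow_ne_zero 3 ht)
        have K1 := K_one hp2 t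
        have K2 := K_two h5 ht
        have K3 := K_three hp2 t
        rw [← hc₁] at K1
        rw [← hc₂] at K2
        rw [← hc₃] at K3
        have sq1 : ((K t c₁ : ℤ) - (p + 1)) ^ 2 = CM.T p (-t ^ 2) ^ 2 := by rw [K1]; ring
        have sq3 : ((K t c₃ : ℤ) - (p + 1)) ^ 2 = CM.U p (-t ^ 3) ^ 2 := by rw [K3]; ring
        refine ⟨⟨⟨?_, ?_⟩, ⟨?_, ?_⟩, ⟨?_, ?_⟩⟩, ?_, ?_, ?_, hs2⟩
        · rw [hc₁]
          exact mul_ne_zero h2 ht2
        · have : 9 * t ^ 2 - 4 * c₁ = t ^ 2 := by rw [hc₁]; ring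
          rw [this]
          exact ht2
        · rw [hc₂]
          exact div_ne_zero (pow_ne_zero 2 (mul_ne_zero h3 ht)) h8'
        · have : 9 * t ^ 2 - 4 * c₂ = (3 * t) ^ 2 / 2 := by
            rw [hc₂]
            field_simp
            ring
          rw [this]
          exact div_ne_zero (pow_ne_zero 2 (mul_ne_zero h3 ht)) h2
        · rw [hc₃]
          exact mul_ne_zero h3 ht2
        · have : 9 * t ^ 2 - 4 * c₃ = -(3 * t ^ 2) := by rw [hc₃]; ring
          rw [this]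
          exact neg_ne_zero.mpr (mul_ne_zero h3 ht2)
        · intro h
          rw [h, K2] at sq1
          exact CM.T_ne_B h81 a1 sq1.symm
        · intro h
          rw [h, sq3] at sq1
          exact CM.T_ne_U (by omega) (by omega) a1 a3 sq1.symm
        · intro h
          rw [h, sq3] at K2
          exact CM.U_ne_B h81 a3 K2
    · rw [if_pos h4] at hc₁ hc₂ hc₃
      obtain ⟨x1, x2, x3, x4⟩ := x_ok h5 h4 hs
      rw [← hx] at x1 x2 x3
      have hi : ¬ IsSquare (-1 : ZMod p) := by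
        rw [ZMod.exists_sq_eq_neg_one_iff]
        omega
      have h17 : (17 : ZMod p) ≠ 0 := by
        exact_mod_cast cast_ne (p := p) (by norm_num : Nat.Prime 17) (by omega)
      obtain ⟨k1, k2, k3⟩ := three_mod h2 h3 h5' h17 hi ht x1 x2 x3
      rw [← hc₁] at k1
      rw [← hc₂] at k2
      rw [← hc₃] at k3
      have e1 := k1.2.2
      have e2 := k2.2.2
      have e3 := k3.2.2
      exact ⟨⟨⟨k1.1, k1.2.1⟩, ⟨k2.1, k2.2.1⟩, ⟨k3.1, k3.2.1⟩⟩, by omega, by omega, by omega, x4⟩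
  obtain ⟨⟨C1, C2, C3⟩, n12, n13, n23, hs2⟩ := hcls
  -- values of N
  have hNv : ∀ c : ZMod p, N (c / a1).val = K t c := by
    intro c
    rw [hN]
    dsimp only
    rw [ZMod.natCast_zmod_val, hβ, hpts]
  have hNk : ∀ k : ℕ, N k = points A B (β + k) := by intro k; rw [hN]
  -- good parameters
  have hP : ∀ k : ℕ, 0 < k → k < p → k ≠ w → Smooth A B (β + k) := by
    intro k k1 k2 k3
    have e : (k : ZMod p) = (a1 * k) / a1 := by field_simp
    have hk0 : (k : ZMod p) ≠ 0 := by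
      intro h
      rw [ZMod.natCast_eq_zero_iff] at h
      exact absurd (Nat.le_of_dvd k1 h) (by omega)
    rw [e, hβ]
    apply hsm
    · exact mul_ne_zero ha1 hk0
    · intro h
      apply k3
      have h4 : (4 : ZMod p) ≠ 0 := by
        have : (4 : ZMod p) = 2 ^ 2 := by norm_num
        rw [this]
        exact pow_ne_zero _ h2
      have : (k : ZMod p) = (3 * t) ^ 2 / (4 * a1) := by
        field_simp
        linear_combination -h
      rw [hw, ← this, ZMod.val_natCast_of_lt k2]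
  have hPc : ∀ c : ZMod p, c ≠ 0 → 9 * t ^ 2 - 4 * c ≠ 0 →
      0 < (c / a1).val ∧ (c / a1).val < p ∧ (c / a1).val ≠ w := by
    intro c h1 h6
    refine ⟨?_, ZMod.val_lt _, ?_⟩
    · rw [Nat.pos_iff_ne_zero, Ne, ZMod.val_eq_zero]
      exact div_ne_zero h1 ha1
    · intro h
      rw [hw] at h
      have h7 := ZMod.val_injective p h
      apply h6
      have h4 : (4 : ZMod p) ≠ 0 := by
        have : (4 : ZMod p) = 2 ^ 2 := by norm_num
        rw [this]
        exact pow_ne_zero _ h2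
      field_simp at h7
      linear_combination -h7
  obtain ⟨g1, g2, g3, g4, g5⟩ := pick_spec (P := fun u => 0 < u ∧ u < p ∧ u ≠ w) (w := w)
    (u1 := (c₁ / a1).val) (u2 := (c₂ / a1).val) (u3 := (c₃ / a1).val) N
    (by rw [hNv, hNv]; exact_mod_cast n12) (by rw [hNv, hNv]; exact_mod_cast n13)
    (by rw [hNv, hNv]; exact_mod_cast n23) (hPc _ C1.1 C1.2) (hPc _ C2.1 C2.2)
    (hPc _ C3.1 C3.2)
  rw [← hq] at g1 g2 g3 g4 g5
  have hlog : q.2 ≤ q.1 + 2 ^ (Nat.log 2 p + 1) := by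
    have := Nat.lt_pow_succ_log_self (b := 2) one_lt_two p
    rw [Nat.succ_eq_add_one] at this
    omega
  obtain ⟨b1, b2, b3, b4, b5⟩ := bisect_spec N (N q.1) (Nat.log 2 p + 1) q.1 q.2 g1 hlog rfl
    g5.symm
  rw [← hr] at b1 b2 b3 b4 b5
  have e1 : β + (r.1 : ZMod p) + 1 = β + ((r.1 + 1 : ℕ) : ZMod p) := by push_cast; ring
  rw [hfind]
  dsimp only
  refine ⟨hP _ (by omega) (by omega) (by omega), ?_, ?_, by omega⟩
  · rw [e1]
    exact hP _ (by omega) (by omega) (by omega)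
  · rw [e1]
    intro h
    apply b4
    rw [← b3, hNk, hNk, h]

/-- **Degree one families with a point of order two.** For every prime `p > 5` and all
polynomials `A`, `B` of degree at most one over the field with `p` elements, with nonconstant
`j`-invariant and a point of order two over the field of rational functions, the procedure `find`
returns, after at most `2 log₂ p + 3` calls, a parameter `l` such that the fibres at `l` and
`l + 1` are elliptic curves with different numbers of points. -/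
theorem result (p : ℕ) [Fact p.Prime] (h5 : 5 < p) (A B : (ZMod p)[X])
    (hA : A.natDegree ≤ 1) (hB : B.natDegree ≤ 1) (hj : NonconstantJ A B)
    (hT : TwoTorsion A B) :
    Smooth A B (find A B).1 ∧ Smooth A B ((find A B).1 + 1) ∧
      points A B (find A B).1 ≠ points A B ((find A B).1 + 1) ∧
      (find A B).2 ≤ 2 * Nat.log 2 p + 3 :=
  find_spec h5 hA hB hj hT

end Pool.Agent.Results.MP_09b6ec_lc.DegreeOneTwoTorsion
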