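import Mathlib
import Pool.Agent.Lib.MP_09b6ec_lc.Group16
import Pool.Agent.Lib.MP_09b6ec_lc.CM

/-!
# Non-isogenous consecutive fibres: Legendre families along arithmetic progressions

`y ^ 2 = (x - r₁)(x - r₂)(x - r₃)` with `r₁ + r₂ + r₃ = 0`, `r₁`, `r₂`, `r₃` polynomials of degree
at most one over the prime field with `p > 5` elements, `r₂ - r₁ = u` a constant. There are at most
two bad parameters. If `p = 3` modulo `4`, the fibres with `r₃ - r₁ = l` and `r₃ - r₁ = u - l` have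
counts with sum `2 p + 2` and lie on the same arc, and an explicit one has a count different from
`p + 1`. If `p = 5` modulo `8` or `p = 17` modulo `24`, then `2` or `3` is a nonsquare, and three
explicit fibres have counts `4` modulo `8`, `8` modulo `16` and `0` modulo `16` (or these classes
subtracted from `2 p + 2`). If `p = 1` modulo `24`, the fibres with `j = 1728`, `j = 0` and
`j = 8000` are explicit (the square roots of `-1`, `-3` and `2` are read off from the counts of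
three curves) and have traces with different squares. Bisection with point counts finds two
consecutive good fibres with different counts.
-/

set_option linter.unusedSectionVars false

namespace Pool.Agent.Results.MP_09b6ec_lc.LegendreFamilies

open Polynomial Pool.Agent.Lib.IsoFib

/-- Bisection. `bisect f k lo v hi`, called with `f lo = v` and `f hi ≠ v`, halves the interval
from `lo` to `hi` at most `k` times, keeping these two properties of its end points. It returns the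
last left end point and the number of values of `f` it has asked for. -/
def bisect (f : ℕ → ℤ) : ℕ → ℕ → ℤ → ℕ → ℕ × ℕ
  | 0, lo, _, _ => (lo, 0)
  | k + 1, lo, v, hi =>
    if hi ≤ lo + 1 then (lo, 0)
    else if f ((lo + hi) / 2) = v then
      ((bisect f k ((lo + hi) / 2) v hi).1, (bisect f k ((lo + hi) / 2) v hi).2 + 1)
    else ((bisect f k lo v ((lo + hi) / 2)).1, (bisect f k lo v ((lo + hi) / 2)).2 + 1)

theorem bisect_spec (f : ℕ → ℤ) (v : ℤ) : ∀ (k lo hi : ℕ), lo < hi → hi ≤ lo + 2 ^ k →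
    f lo = v → f hi ≠ v →
    lo ≤ (bisect f k lo v hi).1 ∧ (bisect f k lo v hi).1 < hi ∧
      f (bisect f k lo v hi).1 = v ∧ f ((bisect f k lo v hi).1 + 1) ≠ v ∧
      (bisect f k lo v hi).2 ≤ k := by
  intro k
  induction k with
  | zero =>
    intro lo hi h1 h2 h3 h4
    have : hi = lo + 1 := by simp at h2; omega
    subst this
    simp [bisect, h3, h4]
  | succ k ih =>
    intro lo hi h1 h2 h3 h4
    rw [bisect]
    split_ifs with h5 h6
    · have : hi = lo + 1 := by omega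
      subst this
      simp [h3, h4]
    · rw [pow_succ] at h2
      obtain ⟨a1, a2, a3, a4, a5⟩ := ih ((lo + hi) / 2) hi (by omega) (by omega) h6 h4
      refine ⟨by dsimp only; omega, a2, a3, a4, by dsimp only; omega⟩
    · rw [pow_succ] at h2
      obtain ⟨a1, a2, a3, a4, a5⟩ := ih lo ((lo + hi) / 2) (by omega) (by omega) h3 h6
      refine ⟨a1, by dsimp only; omega, a3, a4, by dsimp only; omega⟩

/-- Two of the three numbers `u1`, `u2`, `u3` on the same side of `w`, in increasing order. -/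
def pick (w u1 u2 u3 : ℕ) : ℕ × ℕ :=
  if (u1 < w ↔ u2 < w) then (min u1 u2, max u1 u2)
  else if (u1 < w ↔ u3 < w) then (min u1 u3, max u1 u3)
  else (min u2 u3, max u2 u3)

theorem pair_spec {P : ℕ → Prop} {w : ℕ} (N : ℕ → ℤ) (u v : ℕ) (h : N u ≠ N v) (hu : P u)
    (hv : P v) (hw : u < w ↔ v < w) :
      min u v < max u v ∧ P (min u v) ∧ P (max u v) ∧ (min u v < w ↔ max u v < w) ∧
      N (min u v) ≠ N (max u v) := by
  have huv : u ≠ v := fun h' => h (by rw [h'])
  rcases lt_or_gt_of_ne huv with h1 | h1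
  · rw [min_eq_left h1.le, max_eq_right h1.le]
    exact ⟨h1, hu, hv, hw, h⟩
  · rw [min_eq_right h1.le, max_eq_left h1.le]
    exact ⟨h1, hv, hu, hw.symm, h.symm⟩

theorem pick_spec {P : ℕ → Prop} {w u1 u2 u3 : ℕ} (N : ℕ → ℤ) (h12 : N u1 ≠ N u2)
    (h13 : N u1 ≠ N u3) (h23 : N u2 ≠ N u3) (p1 : P u1) (p2 : P u2) (p3 : P u3) :
    (pick w u1 u2 u3).1 < (pick w u1 u2 u3).2 ∧ P (pick w u1 u2 u3).1 ∧
      P (pick w u1 u2 u3).2 ∧
      ((pick w u1 u2 u3).1 < w ↔ (pick w u1 u2 u3).2 < w) ∧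
      N (pick w u1 u2 u3).1 ≠ N (pick w u1 u2 u3).2 := by
  unfold pick
  split_ifs with a b
  · exact pair_spec N _ _ h12 p1 p2 a
  · exact pair_spec N _ _ h13 p1 p3 b
  · exact pair_spec N _ _ h23 p2 p3 (by tauto)

/-! ### the fibres in terms of differences of roots -/

section fibres

variable {F : Type*} [Field F] [DecidableEq F]

/-- coefficient a for the differences u, l -/
def aa (u l : F) : F :=
  (-(u + l) / 3) * (-(u + l) / 3 + u) + (-(u + l) / 3) * (-(u + l) / 3 + l) +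
    (-(u + l) / 3 + u) * (-(u + l) / 3 + l)

/-- coefficient b for the differences u, l -/
def bb (u l : F) : F := -((-(u + l) / 3) * (-(u + l) / 3 + u) * (-(u + l) / 3 + l))

/-- the count for the differences u, l -/
noncomputable def LG (u l : F) : ℕ := cnt (aa u l) (bb u l)

theorem sum0 {u l : F} (h3 : (3 : F) ≠ 0) :
    -(u + l) / 3 + (-(u + l) / 3 + u) + (-(u + l) / 3 + l) = 0 := by
  field_simp
  ring

theorem disc {u l : F} (h3 : (3 : F) ≠ 0) :
    4 * aa u l ^ 3 + 27 * bb u l ^ 2 = -((u * l * (u - l)) ^ 2) := by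
  unfold aa bb
  field_simp
  ring

theorem disc_ne {u l : F} (h3 : (3 : F) ≠ 0) (hu : u ≠ 0) (hl : l ≠ 0) (hul : u ≠ l) :
    4 * aa u l ^ 3 + 27 * bb u l ^ 2 ≠ 0 := by
  rw [disc h3]
  exact neg_ne_zero.mpr (pow_ne_zero _ (mul_ne_zero (mul_ne_zero hu hl) (sub_ne_zero.mpr hul)))

theorem scale {u l : F} (h3 : (3 : F) ≠ 0) :
    aa u (u * l) = u ^ 2 * aa 1 l ∧ bb u (u * l) = u ^ 3 * bb 1 l := by
  unfold aa bb
  constructor <;> (field_simp; try ring)

theorem reflect {u l : F} (h3 : (3 : F) ≠ 0) :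
    aa u (u - l) = (-1) ^ 2 * aa u l ∧ bb u (u - l) = (-1) ^ 3 * bb u l := by
  unfold aa bb
  constructor <;> (field_simp; try ring)

variable [Fintype F]

theorem LG_four {u l : F} (h2 : (2 : F) ≠ 0) (h3 : (3 : F) ≠ 0) (hu : u ≠ 0) (hl : l ≠ 0)
    (hul : u ≠ l) (k0 : ¬ (IsSquare (-u) ∧ IsSquare (-l)))
    (k1 : ¬ (IsSquare u ∧ IsSquare (u - l))) (k2 : ¬ (IsSquare l ∧ IsSquare (l - u))) :
    LG u l % 8 = 4 := by
  refine cnt_four (e := -(u + l) / 3) (e1 := -(u + l) / 3 + u) (e2 := -(u + l) / 3 + l) h2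
    (disc_ne h3 hu hl hul) (sum0 h3) rfl rfl (by simpa using hul) (by simpa using hu)
    (by simpa using hl) ?_ ?_ ?_
  · simpa using k0
  · simpa using k1
  · simpa using k2

theorem LG_eight {u l : F} (h2 : (2 : F) ≠ 0) (h3 : (3 : F) ≠ 0) (hu : u ≠ 0) (hl : l ≠ 0)
    (hul : u ≠ l) (k0 : (IsSquare (-u) ∧ IsSquare (-l)) ∨ (IsSquare u ∧ IsSquare (u - l))) :
    LG u l % 8 = 0 := by
  rcases k0 with k0 | k0
  · refine cnt_eight (e := -(u + l) / 3) (e1 := -(u + l) / 3 + u) (e2 := -(u + l) / 3 + l) h2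
      (disc_ne h3 hu hl hul) (sum0 h3) rfl rfl (by simpa using hul) (by simpa using hu)
      (by simpa using hl) ?_ ?_
    · simpa using k0.1
    · simpa using k0.2
  · refine cnt_eight (e := -(u + l) / 3 + u) (e1 := -(u + l) / 3) (e2 := -(u + l) / 3 + l) h2
      (disc_ne h3 hu hl hul) (by linear_combination sum0 (u := u) (l := l) h3)
      (by unfold aa; ring) (by unfold bb; ring) (by simpa using hl) (by simpa using hu)
      (by simpa using hul) ?_ ?_
    · simpa using k0.1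
    · simpa using k0.2

theorem LG_sixteen {u l : F} (h2 : (2 : F) ≠ 0) (h3 : (3 : F) ≠ 0) (hu : u ≠ 0) (hl : l ≠ 0)
    (hul : u ≠ l) (k0 : IsSquare (-u) ∧ IsSquare (-l))
    (k1 : IsSquare u ∧ IsSquare (u - l)) (k2 : IsSquare l ∧ IsSquare (l - u)) :
    LG u l % 16 = 0 := by
  refine cnt_sixteen (e := -(u + l) / 3) (e1 := -(u + l) / 3 + u) (e2 := -(u + l) / 3 + l) h2
    (disc_ne h3 hu hl hul) (sum0 h3) rfl rfl (by simpa using hul) (by simpa using hu)
    (by simpa using hl) ?_ ?_ ?_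
  · simpa using k0
  · simpa using k1
  · simpa using k2

theorem LG_eight16 {u l r : F} (h2 : (2 : F) ≠ 0) (h3 : (3 : F) ≠ 0) (hu : u ≠ 0) (hl : l ≠ 0)
    (hul : u ≠ l) (k0 : IsSquare (-u) ∧ IsSquare (-l))
    (k1 : ¬ (IsSquare u ∧ IsSquare (u - l))) (k2 : ¬ (IsSquare l ∧ IsSquare (l - u)))
    (hr : r ^ 2 = u * l) (r1 : ¬ IsSquare r) (r2 : ¬ IsSquare (-r)) :
    LG u l % 16 = 8 := by
  refine cnt_eight16 (e := -(u + l) / 3) (e1 := -(u + l) / 3 + u) (e2 := -(u + l) / 3 + l)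
    (r := r) h2 (disc_ne h3 hu hl hul) (sum0 h3) rfl rfl (by simpa using hul)
    (by simpa using hu) (by simpa using hl) ?_ ?_ ?_ (by rw [hr]; ring) r1 r2
  · simpa using k0
  · simpa using k1
  · simpa using k2

theorem LG_refl {u l : F} (h2 : (2 : F) ≠ 0) (h3 : (3 : F) ≠ 0) (hm : ¬ IsSquare (-1 : F)) :
    LG u l + LG u (u - l) = 2 * Fintype.card F + 2 := by
  unfold LG
  rw [(reflect h3).1, (reflect h3).2]
  exact cnt_twist h2 hm

theorem LG_scale {u l : F} (h2 : (2 : F) ≠ 0) (h3 : (3 : F) ≠ 0) (hu : u ≠ 0) :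
    (IsSquare u ∧ LG u (u * l) = LG 1 l) ∨
      (¬ IsSquare u ∧ LG 1 l + LG u (u * l) = 2 * Fintype.card F + 2) := by
  by_cases h : IsSquare u
  · left
    refine ⟨h, ?_⟩
    unfold LG
    rw [(scale h3).1, (scale h3).2]
    exact cnt_twist_sq h hu
  · right
    refine ⟨h, ?_⟩
    unfold LG
    rw [(scale h3).1, (scale h3).2]
    exact cnt_twist h2 h

end fibres

/-! ### explicit fibres -/

section explicit

variable {F : Type*} [Field F] [DecidableEq F] [Fintype F]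

/-- good difference -/
def Gd (u l : F) : Prop := l ≠ 0 ∧ u ≠ l

theorem count_seven {u x : F} (h2 : (2 : F) ≠ 0) (h3 : (3 : F) ≠ 0) (hm : ¬ IsSquare (-1 : F))
    (hu : u ≠ 0) (hx : ¬ IsSquare x) (hx1 : IsSquare (x - 1)) :
    Gd u (u * x) ∧ LG u (u * x) % 8 = 4 := by
  have hx0 : x ≠ 0 := nsq_ne_zero hx
  have hx10 : x - 1 ≠ 0 := by
    intro h
    apply hx
    rw [sub_eq_zero.mp h]
    exact ⟨1, by ring⟩
  have hx1' : ¬ IsSquare (1 - x) := by
    have : 1 - x = -1 * (x - 1) := by ring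
    rw [this]
    exact nsq_mul_sq hm hx1 hx10
  have hul : u ≠ u * x := by
    intro h
    apply hx10
    have : u * (x - 1) = 0 := by linear_combination -h
    exact (mul_eq_zero.mp this).resolve_left hu
  refine ⟨⟨mul_ne_zero hu hx0, hul⟩, ?_⟩
  refine LG_four h2 h3 hu (mul_ne_zero hu hx0) hul ?_ ?_ ?_
  · rintro ⟨a, b⟩
    exact nsq_of_mul (b := u) hx hu (by ring) (a.mul b)
  · rintro ⟨a, b⟩
    exact nsq_of_mul (b := u) hx1' hu (by ring) (a.mul b)
  · rintro ⟨a, b⟩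
    exact nsq_of_mul (b := u) (nsq_mul_sq hx hx1 hx10) hu (by ring) (a.mul b)

theorem count_three {u : F} (h2 : (2 : F) ≠ 0) (h3 : (3 : F) ≠ 0) (h5 : (5 : F) ≠ 0)
    (hm : ¬ IsSquare (-1 : F)) (hu : u ≠ 0) :
    Gd u (u * (9 / 25)) ∧ LG u (u * (9 / 25)) % 8 = 0 := by
  have h25 : (25 : F) ≠ 0 := by
    have : (25 : F) = 5 ^ 2 := by norm_num
    rw [this]; exact pow_ne_zero _ h5
  have h9 : (9 : F) ≠ 0 := by
    have : (9 : F) = 3 ^ 2 := by norm_num
    rw [this]; exact pow_ne_zero _ h3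
  have h16 : (16 : F) ≠ 0 := by
    have : (16 : F) = 2 ^ 4 := by norm_num
    rw [this]; exact pow_ne_zero _ h2
  have hl : u * (9 / 25) ≠ 0 := mul_ne_zero hu (div_ne_zero h9 h25)
  have hul : u ≠ u * (9 / 25) := by
    intro h
    have : u * 16 = 0 := by
      field_simp at h
      linear_combination u * h
    exact (mul_ne_zero hu h16) this
  refine ⟨⟨hl, hul⟩, LG_eight h2 h3 hu hl hul ?_⟩
  have e1 : (25 : F) = 5 ^ 2 := by norm_num
  by_cases hs : IsSquare u
  · right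
    refine ⟨hs, sq_of_mul (b := 4 / 5) hs ?_⟩
    rw [e1]
    field_simp
    norm_num
  · left
    have hs' : IsSquare (-u) := by
      have := sq_of_nsq hm hs
      rwa [neg_one_mul] at this
    refine ⟨hs', sq_of_mul (b := 3 / 5) hs' ?_⟩
    rw [e1]
    field_simp
    norm_num

theorem count_T {m : F} (h2 : (2 : F) ≠ 0) (h3 : (3 : F) ≠ 0) (hi : IsSquare (-1 : F))
    (hm : ¬ IsSquare m) :
    Gd 1 ((m + 1) ^ 2 / (4 * m)) ∧ LG 1 ((m + 1) ^ 2 / (4 * m)) % 8 = 4 ∧
      ¬ IsSquare ((m + 1) ^ 2 / (4 * m)) ∧ ¬ IsSquare ((m + 1) ^ 2 / (4 * m) - 1) := by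
  have h4 : (4 : F) ≠ 0 := by
    have : (4 : F) = 2 ^ 2 := by norm_num
    rw [this]; exact pow_ne_zero _ h2
  have hm0 : m ≠ 0 := nsq_ne_zero hm
  have hi0 : (-1 : F) ≠ 0 := by simp
  have hm1 : m - 1 ≠ 0 := by
    intro h
    apply hm
    rw [sub_eq_zero.mp h]
    exact ⟨1, by ring⟩
  have hm3 : m + 1 ≠ 0 := by
    intro h
    apply hm
    have : m = -1 := by linear_combination h
    rw [this]
    exact hi
  have n1 : ¬ IsSquare ((m + 1) ^ 2 / (4 * m)) :=
    nsq_of_mul (b := (m + 1) / (2 * m)) hm (div_ne_zero hm3 (mul_ne_zero h2 hm0))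
      (by field_simp; norm_num)
  have n2 : ¬ IsSquare ((m + 1) ^ 2 / (4 * m) - 1) :=
    nsq_of_mul (b := (m - 1) / (2 * m)) hm (div_ne_zero hm1 (mul_ne_zero h2 hm0))
      (by field_simp; ring)
  have hneg : ∀ a : F, ¬ IsSquare a → ¬ IsSquare (-a) := by
    intro a ha hb
    apply ha
    have := hi.mul hb
    rwa [neg_one_mul, neg_neg] at this
  have hul : (1 : F) ≠ (m + 1) ^ 2 / (4 * m) := by
    intro h
    apply n1
    rw [← h]
    exact ⟨1, by ring⟩
  refine ⟨⟨nsq_ne_zero n1, hul⟩, ?_, n1, n2⟩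
  refine LG_four h2 h3 one_ne_zero (nsq_ne_zero n1) hul ?_ ?_ ?_
  · rintro ⟨-, b⟩
    exact hneg _ n1 b
  · rintro ⟨-, b⟩
    apply hneg _ n2
    rw [neg_sub]
    exact b
  · rintro ⟨a, -⟩
    exact n1 a

theorem count_sixteen (h2 : (2 : F) ≠ 0) (h3 : (3 : F) ≠ 0) (h5 : (5 : F) ≠ 0)
    (hi : IsSquare (-1 : F)) : Gd (1 : F) (9 / 25) ∧ LG (1 : F) (9 / 25) % 16 = 0 := by
  have h25 : (25 : F) ≠ 0 := by
    have : (25 : F) = 5 ^ 2 := by norm_num
    rw [this]; exact pow_ne_zero _ h5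
  have h9 : (9 : F) ≠ 0 := by
    have : (9 : F) = 3 ^ 2 := by norm_num
    rw [this]; exact pow_ne_zero _ h3
  have h16 : (16 : F) ≠ 0 := by
    have : (16 : F) = 2 ^ 4 := by norm_num
    rw [this]; exact pow_ne_zero _ h2
  have hl : (9 / 25 : F) ≠ 0 := div_ne_zero h9 h25
  have hul : (1 : F) ≠ 9 / 25 := by
    intro h
    have : (16 : F) = 0 := by
      field_simp at h
      linear_combination h
    exact h16 this
  have e1 : (25 : F) = 5 ^ 2 := by norm_num
  have s1 : IsSquare (9 / 25 : F) := ⟨3 / 5, by rw [e1]; field_simp; norm_num⟩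
  have s2 : IsSquare (1 - 9 / 25 : F) := ⟨4 / 5, by rw [e1]; field_simp; norm_num⟩
  have s3 : IsSquare (1 : F) := ⟨1, by ring⟩
  have hneg : ∀ a : F, IsSquare a → IsSquare (-a) := by
    intro a ha
    have := hi.mul ha
    rwa [neg_one_mul] at this
  refine ⟨⟨hl, hul⟩, LG_sixteen h2 h3 one_ne_zero hl hul ⟨hi, hneg _ s1⟩ ⟨s3, s2⟩ ⟨s1, ?_⟩⟩
  have := hneg _ s2
  rwa [neg_sub] at this

theorem count_eight {r l : F} (h2 : (2 : F) ≠ 0) (h3 : (3 : F) ≠ 0) (hi : IsSquare (-1 : F))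
    (hr : ¬ IsSquare r) (hl : l = r ^ 2) (hl1 : ¬ IsSquare (l - 1)) :
    Gd 1 l ∧ LG 1 l % 16 = 8 := by
  have hl0 : l ≠ 0 := by rw [hl]; exact pow_ne_zero _ (nsq_ne_zero hr)
  have hneg : ∀ a : F, ¬ IsSquare a → ¬ IsSquare (-a) := by
    intro a ha hb
    apply ha
    have := hi.mul hb
    rwa [neg_one_mul, neg_neg] at this
  have hul : (1 : F) ≠ l := by
    intro h
    apply hl1
    rw [← h]
    exact ⟨0, by ring⟩
  have s1 : IsSquare (-l) := by
    have : IsSquare l := ⟨r, by rw [hl]; ring⟩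
    have := hi.mul this
    rwa [neg_one_mul] at this
  refine ⟨⟨hl0, hul⟩, LG_eight16 (r := r) h2 h3 one_ne_zero hl0 hul ⟨hi, s1⟩ ?_ ?_
    (by rw [hl, one_mul]) hr (hneg _ hr)⟩
  · rintro ⟨-, b⟩
    apply hneg _ hl1
    rw [neg_sub]
    exact b
  · rintro ⟨-, b⟩
    exact hl1 b

end explicit

/-! ### the families -/

variable {p : ℕ} [Fact p.Prime]

/-- The number of points over the field with `p` elements of the fibre
`y ^ 2 = x ^ 3 + A(l) x + B(l)`, the point at infinity included. -/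
noncomputable def points (A B : (ZMod p)[X]) (l : ZMod p) : ℕ :=
  Nat.card {P : ZMod p × ZMod p // P.2 ^ 2 = P.1 ^ 3 + A.eval l * P.1 + B.eval l} + 1

/-- The fibre at `l` is an elliptic curve. -/
def Smooth (A B : (ZMod p)[X]) (l : ZMod p) : Prop :=
  4 * A.eval l ^ 3 + 27 * B.eval l ^ 2 ≠ 0

/-- The `j`-invariant `6912 A ^ 3 / (4 A ^ 3 + 27 B ^ 2)` of the family is defined and is not a
constant rational function. -/
def NonconstantJ (A B : (ZMod p)[X]) : Prop :=
  4 * A ^ 3 + 27 * B ^ 2 ≠ 0 ∧ ∀ c : ZMod p, 6912 * A ^ 3 ≠ C c * (4 * A ^ 3 + 27 * B ^ 2)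

/-- `A` for the family `y ^ 2 = (x - r₁)(x - r₂)(x - r₃)`, `r₁ + r₂ + r₃ = 0`. -/
noncomputable def coefA (r₁ r₂ r₃ : (ZMod p)[X]) : (ZMod p)[X] := r₁ * r₂ + r₁ * r₃ + r₂ * r₃

/-- `B` for the family `y ^ 2 = (x - r₁)(x - r₂)(x - r₃)`, `r₁ + r₂ + r₃ = 0`. -/
noncomputable def coefB (r₁ r₂ r₃ : (ZMod p)[X]) : (ZMod p)[X] := -(r₁ * r₂ * r₃)

/-- The number of points over the field with `p` elements of `y ^ 2 = x ^ 3 + a x + b`, the point
at infinity included. -/
noncomputable def count (a b : ZMod p) : ℕ :=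
  Nat.card {P : ZMod p × ZMod p // P.2 ^ 2 = P.1 ^ 3 + a * P.1 + b} + 1

/-- `count a b - (p + 1)`, the trace up to sign. -/
noncomputable def trace (a b : ZMod p) : ℤ := (count a b : ℤ) - (p + 1)

/-- With `t = trace a b` and the integer square root `z` of `m (4 p - t ^ 2)`: the residue `z / t`.
It is used where `m (4 p - t ^ 2)` is a square, and is then a square root of `- m`. One value of
`count` is needed. -/
noncomputable def root (m : ℕ) (a b : ZMod p) : ZMod p :=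
  (Int.sqrt (m * (4 * p - trace a b ^ 2)) : ZMod p) / (trace a b : ZMod p)

/-- The procedure. It reads `p` and the coefficients of `r₁`, `r₂`, `r₃`. It returns a parameter
and the number of calls it has made, a call being the value of a Jacobi symbol of a natural number
at `p` or the value of `count` for one curve (`points` at a parameter is such a value).

* `u = r₂ - r₁` (a constant), `r₃ - r₁ = a l + b`; the bad parameters are `β` and `β + w`.
* `p % 8 = 7`: `s` is a bisection with Jacobi symbols between `1` and `p - 1`.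
  `p % 24 = 17`: `s` is a bisection between `T` and `p - 1` which looks for the end of a run of
  nonsquares, with two Jacobi symbols for every value (so its number of calls is doubled).
* `l₁`, `l₂` and, for `p % 4 = 1`, `l₃` are the values of `r₃ - r₁` at the explicit parameters
  `β + (lᵢ / a).val`. For `p % 24 = 1` these are the fibres with `j = 1728`, `8000` and `0`, and
  the count is needed for three curves. Two of them, `β + q.1` and `β + q.2`, are not separated by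
  bad parameters and have different counts.
* `c` is the number of calls made so far.
* The last bisection looks for a change of the count between `β + q.1` and `β + q.2`. -/
noncomputable def find (r₁ r₂ r₃ : (ZMod p)[X]) : ZMod p × ℕ :=
  let u : ZMod p := (r₂ - r₁).coeff 0
  let a : ZMod p := (r₃ - r₁).coeff 1
  let b : ZMod p := (r₃ - r₁).coeff 0
  let m : ZMod p := if p % 8 = 5 then 2 else 3
  let T : ZMod p := (m + 1) ^ 2 / (4 * m)
  let s : ℕ × ℕ := if p % 8 = 7 then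
      bisect (fun k => jacobiSym k p) (Nat.log 2 p + 1) 1 1 (p - 1)
    else if p % 24 = 17 then
      bisect (fun k => if jacobiSym (k - 1 : ℕ) p = -1 ∧ jacobiSym k p = -1 then 1 else 0)
        (Nat.log 2 p + 1) T.val 1 (p - 1)
    else (0, 0)
  let l₁ : ZMod p := if p % 24 = 1 then u * (-1) else
    if p % 8 = 7 then u * (s.1 + 1 : ℕ) else
    if p % 8 = 3 then u * (9 / 25) else u * T
  let l₂ : ZMod p := if p % 24 = 1 then
      u * (3 + 2 * (root 1 1 0 * root 2 (-10 / 3) (-56 / 27))) else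
    if p % 4 = 3 then u - l₁ else
    if p % 8 = 5 then u * (-1) else u * (s.1 : ZMod p) ^ 2
  let l₃ : ZMod p := if p % 24 = 1 then u * ((1 + root 3 0 1) / 2) else u * (9 / 25)
  let c : ℕ := if p % 24 = 1 then 3 else if p % 24 = 17 then 2 * s.2 else s.2
  let β : ZMod p := -b / a
  let w : ℕ := (u / a).val
  let q : ℕ × ℕ := if p % 4 = 3 then
      (min (l₁ / a).val (l₂ / a).val, max (l₁ / a).val (l₂ / a).val)
    else pick w (l₁ / a).val (l₂ / a).val (l₃ / a).val
  let N : ℕ → ℤ := fun k => points (coefA r₁ r₂ r₃) (coefB r₁ r₂ r₃) (β + k)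
  let r : ℕ × ℕ := bisect N (Nat.log 2 p + 1) q.1 (N q.1) q.2
  (β + r.1, c + (r.2 + 1))

theorem cast_ne {q : ℕ} (hq : q.Prime) (h : q ≠ p) : (q : ZMod p) ≠ 0 := by
  intro h0
  rw [ZMod.natCast_eq_zero_iff] at h0
  exact h ((Nat.prime_dvd_prime_iff_eq (Fact.out : p.Prime) hq).mp h0).symm

theorem family_data (h3 : (3 : ZMod p) ≠ 0) {r₁ r₂ r₃ : (ZMod p)[X]} (hs : r₁ + r₂ + r₃ = 0)
    (hd : (r₃ - r₁).natDegree ≤ 1) (hu : ∃ u : ZMod p, r₂ - r₁ = C u)
    (hj : NonconstantJ (coefA r₁ r₂ r₃) (coefB r₁ r₂ r₃)) :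
    (r₂ - r₁).coeff 0 ≠ 0 ∧ (r₃ - r₁).coeff 1 ≠ 0 ∧
    ∀ l : ZMod p, r₁.eval l = -((r₂ - r₁).coeff 0 + ((r₃ - r₁).coeff 1 * l +
        (r₃ - r₁).coeff 0)) / 3 ∧
      r₂.eval l = r₁.eval l + (r₂ - r₁).coeff 0 ∧
      r₃.eval l = r₁.eval l + ((r₃ - r₁).coeff 1 * l + (r₃ - r₁).coeff 0) := by
  obtain ⟨u, hu⟩ := hu
  have hu0 : (r₂ - r₁).coeff 0 = u := by rw [hu]; simp
  obtain ⟨a, b, hab⟩ := Polynomial.exists_eq_X_add_C_of_natDegree_le_one hd
  have ha1 : (r₃ - r₁).coeff 1 = a := by rw [hab]; simp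
  have hb0 : (r₃ - r₁).coeff 0 = b := by rw [hab]; simp
  rw [hu0, ha1, hb0]
  obtain ⟨j1, j2⟩ := hj
  refine ⟨?_, ?_, ?_⟩
  · rintro rfl
    apply j1
    have e1 : r₂ = r₁ := by
      rw [map_zero] at hu
      exact sub_eq_zero.mp hu
    have e2 : r₃ = -2 * r₁ := by
      rw [e1] at hs
      linear_combination hs
    unfold coefA coefB
    rw [e1, e2]
    ring
  · rintro rfl
    have hC3 : (C (3 : ZMod p) : (ZMod p)[X]) = 3 := map_ofNat C 3
    have e1 : r₁ = C (-(u + b) / 3) := by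
      have e3 : 3 * r₁ = C (-(u + b)) := by
        have e4 : r₂ = r₁ + C u := by linear_combination hu
        have e5 : r₃ = r₁ + C b := by
          rw [map_zero, zero_mul, zero_add] at hab
          linear_combination hab
        rw [e4, e5] at hs
        rw [map_neg, map_add]
        linear_combination hs
      have e6 : (C (3⁻¹ : ZMod p) : (ZMod p)[X]) * 3 = 1 := by
        rw [← hC3, ← map_mul, inv_mul_cancel₀ h3, map_one]
      have e7 : C (-(u + b) / 3) = C (3⁻¹ : ZMod p) * C (-(u + b)) := by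
        rw [← map_mul]
        congr 1
        field_simp
      rw [e7, ← e3, ← mul_assoc, e6, one_mul]
    have e2 : r₂ = C (-(u + b) / 3 + u) := by
      rw [map_add, ← e1]
      linear_combination hu
    have e3 : r₃ = C (-(u + b) / 3 + b) := by
      rw [map_add, ← e1]
      rw [map_zero, zero_mul, zero_add] at hab
      linear_combination hab
    obtain ⟨α, hα⟩ : ∃ α : ZMod p, coefA r₁ r₂ r₃ = C α := by
      unfold coefA
      rw [e1, e2, e3]
      exact ⟨(-(u + b) / 3) * (-(u + b) / 3 + u) + (-(u + b) / 3) * (-(u + b) / 3 + b) +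
        (-(u + b) / 3 + u) * (-(u + b) / 3 + b), by
        rw [map_add C (_ + _), map_add C (_ * _), map_mul C (-(u + b) / 3),
          map_mul C (-(u + b) / 3), map_mul C (-(u + b) / 3 + u)]⟩
    obtain ⟨β, hβ⟩ : ∃ β : ZMod p, coefB r₁ r₂ r₃ = C β := by
      unfold coefB
      rw [e1, e2, e3]
      exact ⟨-((-(u + b) / 3) * (-(u + b) / 3 + u) * (-(u + b) / 3 + b)), by
        rw [map_neg, map_mul C (_ * _), map_mul C (-(u + b) / 3)]⟩
    rw [hα, hβ] at j1 j2
    have h4 : 4 * α ^ 3 + 27 * β ^ 2 ≠ 0 := by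
      intro h
      apply j1
      have := congrArg (C : ZMod p → (ZMod p)[X]) h
      simp only [map_add, map_mul, map_pow, map_ofNat, map_zero] at this
      exact this
    apply j2 (6912 * α ^ 3 / (4 * α ^ 3 + 27 * β ^ 2))
    have h5 : 6912 * α ^ 3 =
        (6912 * α ^ 3 / (4 * α ^ 3 + 27 * β ^ 2)) * (4 * α ^ 3 + 27 * β ^ 2) := by
      rw [div_mul_cancel₀ _ h4]
    have := congrArg (C : ZMod p → (ZMod p)[X]) h5
    rw [map_mul C (6912 * α ^ 3 / (4 * α ^ 3 + 27 * β ^ 2))] at this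
    simp only [map_add, map_mul C (6912 : ZMod p), map_mul C (4 : ZMod p),
      map_mul C (27 : ZMod p), map_pow, map_ofNat] at this
    exact this
  · intro l
    have e1 : r₂.eval l - r₁.eval l = u := by
      have := congrArg (eval l) hu
      simpa using this
    have e2 : r₃.eval l - r₁.eval l = a * l + b := by
      have := congrArg (eval l) hab
      simpa using this
    have e3 : r₁.eval l + r₂.eval l + r₃.eval l = 0 := by
      have := congrArg (eval l) hs
      simpa using this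
    refine ⟨?_, by linear_combination e1, by linear_combination e2⟩
    field_simp
    linear_combination e3 - e1 - e2

/-- a value of a Jacobi symbol and squares -/
theorem jac_neg (k : ℕ) : jacobiSym k p = -1 ↔ ¬ IsSquare (k : ZMod p) := by
  rw [← jacobiSym.legendreSym.to_jacobiSym, legendreSym.eq_neg_one_iff]
  push_cast
  rfl

theorem jac_one {k : ℕ} (hk : (k : ZMod p) ≠ 0) : jacobiSym k p = 1 ↔ IsSquare (k : ZMod p) := by
  rw [← jacobiSym.legendreSym.to_jacobiSym, legendreSym.eq_one_iff]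
  · push_cast
    rfl
  · push_cast
    exact hk

theorem cast_pred {k : ℕ} (hk : 1 ≤ k) : ((k - 1 : ℕ) : ZMod p) = (k : ZMod p) - 1 := by
  rw [Nat.cast_sub hk, Nat.cast_one]

theorem cast_ne_zero' {k : ℕ} (h1 : 1 ≤ k) (h2 : k < p) : (k : ZMod p) ≠ 0 := by
  intro h
  rw [ZMod.natCast_eq_zero_iff] at h
  exact absurd (Nat.le_of_dvd h1 h) (by omega)

theorem log_ok (lo hi : ℕ) (h : hi ≤ p) : hi ≤ lo + 2 ^ (Nat.log 2 p + 1) := by
  have := Nat.lt_pow_succ_log_self (b := 2) one_lt_two p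
  rw [Nat.succ_eq_add_one] at this
  omega

theorem s_seven (h5 : 5 < p) (h8 : p % 8 = 7) {s : ℕ × ℕ}
    (hs : s = bisect (fun k => jacobiSym k p) (Nat.log 2 p + 1) 1 1 (p - 1)) :
    ¬ IsSquare ((s.1 + 1 : ℕ) : ZMod p) ∧ IsSquare (((s.1 + 1 : ℕ) : ZMod p) - 1) ∧
      s.2 ≤ Nat.log 2 p + 1 := by
  have hp : p.Prime := Fact.out
  have hm1 : ¬ IsSquare (-1 : ZMod p) := by
    rw [ZMod.exists_sq_eq_neg_one_iff]
    omega
  have hpm : ((p - 1 : ℕ) : ZMod p) = -1 := by
    rw [cast_pred hp.one_lt.le]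
    simp
  have h1 : (fun k : ℕ => jacobiSym k p) 1 = 1 := by simp
  have h2 : (fun k : ℕ => jacobiSym k p) (p - 1) ≠ 1 := by
    intro h
    have := (jac_one (cast_ne_zero' (p := p) (by omega) (by omega))).mp h
    rw [hpm] at this
    exact hm1 this
  obtain ⟨a1, a2, a3, a4, a5⟩ := bisect_spec (fun k : ℕ => jacobiSym k p) 1
    (Nat.log 2 p + 1) 1 (p - 1) (by omega) (log_ok 1 (p - 1) (by omega)) h1 h2
  rw [← hs] at a1 a2 a3 a4 a5
  refine ⟨?_, ?_, a5⟩
  · intro h
    exact a4 ((jac_one (cast_ne_zero' (p := p) (by omega) (by omega))).mpr h)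
  · have e : ((s.1 + 1 : ℕ) : ZMod p) - 1 = (s.1 : ZMod p) := by push_cast; ring
    rw [e]
    exact (jac_one (cast_ne_zero' (p := p) (by omega) (by omega))).mp a3

theorem s_one (h5 : 5 < p) (h8 : p % 8 = 1) {T : ZMod p} (hT : ¬ IsSquare T)
    (hT1 : ¬ IsSquare (T - 1)) {s : ℕ × ℕ}
    (hs : s = bisect (fun k => if jacobiSym (k - 1 : ℕ) p = -1 ∧ jacobiSym k p = -1 then 1 else 0)
        (Nat.log 2 p + 1) T.val 1 (p - 1)) :
    ¬ IsSquare (s.1 : ZMod p) ∧ ¬ IsSquare ((s.1 : ZMod p) ^ 2 - 1) ∧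
      s.2 ≤ Nat.log 2 p + 1 := by
  have hp : p.Prime := Fact.out
  have hm1 : IsSquare (-1 : ZMod p) := by
    rw [ZMod.exists_sq_eq_neg_one_iff]
    omega
  have hpm : ((p - 1 : ℕ) : ZMod p) = -1 := by
    rw [cast_pred hp.one_lt.le]
    simp
  set f : ℕ → ℤ := fun k => if jacobiSym (k - 1 : ℕ) p = -1 ∧ jacobiSym k p = -1 then 1 else 0
    with hf
  have hf1 : ∀ k, f k = 1 ↔ (jacobiSym (k - 1 : ℕ) p = -1 ∧ jacobiSym k p = -1) := by
    intro k
    rw [hf]
    dsimp only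
    split_ifs with h <;> simp [h]
  have hTv : ((T.val : ℕ) : ZMod p) = T := ZMod.natCast_zmod_val T
  have hT0 : 1 ≤ T.val := by
    rw [Nat.one_le_iff_ne_zero, Ne, ZMod.val_eq_zero]
    exact nsq_ne_zero hT
  have hTp : T.val < p := ZMod.val_lt T
  have hTp1 : T.val ≠ p - 1 := by
    intro h
    apply hT
    rw [← hTv, h, hpm]
    exact hm1
  have h1 : f T.val = 1 := by
    rw [hf1, jac_neg, jac_neg, cast_pred hT0, hTv]
    exact ⟨hT1, hT⟩
  have h2 : f (p - 1) ≠ 1 := by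
    rw [Ne, hf1, jac_neg, jac_neg, hpm]
    rintro ⟨-, h⟩
    exact h hm1
  obtain ⟨a1, a2, a3, a4, a5⟩ := bisect_spec f 1
    (Nat.log 2 p + 1) T.val (p - 1) (by omega) (log_ok _ (p - 1) (by omega)) h1 h2
  rw [← hs] at a1 a2 a3 a4 a5
  rw [hf1, jac_neg, jac_neg, cast_pred (by omega)] at a3
  rw [Ne, hf1, jac_neg, jac_neg, Nat.add_sub_cancel] at a4
  have h3 : IsSquare ((s.1 + 1 : ℕ) : ZMod p) := by
    by_contra h
    exact a4 ⟨a3.2, h⟩
  have h4 : ((s.1 + 1 : ℕ) : ZMod p) ≠ 0 := cast_ne_zero' (by omega) (by omega)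
  refine ⟨a3.2, ?_, a5⟩
  have e : (s.1 : ZMod p) ^ 2 - 1 = ((s.1 : ZMod p) - 1) * ((s.1 + 1 : ℕ) : ZMod p) := by
    push_cast
    ring
  rw [e]
  exact nsq_mul_sq a3.1 h3 h4

theorem five_data (h8 : p % 8 = 5) :
    ¬ IsSquare (2 : ZMod p) ∧ ∃ i : ZMod p, ¬ IsSquare i ∧ (-1 : ZMod p) = i ^ 2 := by
  have hp2 : p ≠ 2 := by omega
  have h1 : ¬ IsSquare (2 : ZMod p) := by
    rw [ZMod.exists_sq_eq_two_iff hp2]
    omega
  have h2 : IsSquare (-1 : ZMod p) := by
    rw [ZMod.exists_sq_eq_neg_one_iff]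
    omega
  refine ⟨h1, ?_⟩
  obtain ⟨i, hi⟩ := h2
  have hi2 : (-1 : ZMod p) = i ^ 2 := by rw [hi]; ring
  have hi0 : i ≠ 0 := by
    rintro rfl
    simp at hi
  refine ⟨i, ?_, hi2⟩
  rw [ZMod.euler_criterion p hi0]
  obtain ⟨k, hk⟩ : ∃ k, p / 2 = 4 * k + 2 := ⟨p / 8, by omega⟩
  have h4 : i ^ 4 = 1 := by
    have : i ^ 4 = (i ^ 2) ^ 2 := by ring
    rw [this, ← hi2]
    ring
  rw [hk, pow_add, pow_mul, h4, one_pow, one_mul, ← hi2]
  intro h
  have h2' : (2 : ZMod p) = 0 := by linear_combination -h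
  exact cast_ne (p := p) Nat.prime_two (fun h => hp2 h.symm) (by exact_mod_cast h2')

theorem same_side {x W : ZMod p} (hx : x ≠ 0) (hxW : W ≠ x) :
    (x.val < W.val ↔ (W - x).val < W.val) := by
  have h0 : 0 < x.val := by
    rw [Nat.pos_iff_ne_zero, Ne, ZMod.val_eq_zero]
    exact hx
  constructor
  · intro h
    rw [ZMod.val_sub h.le]
    omega
  · intro h
    by_contra h1
    have h2 : W.val ≤ x.val := by omega
    have h3 : W - x = -(x - W) := by ring
    have h4 : x - W ≠ 0 := sub_ne_zero.mpr (Ne.symm hxW)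
    rw [h3, ZMod.neg_val, if_neg h4, ZMod.val_sub h2] at h
    have h5 := ZMod.val_lt x
    omega

/-! ### the fibres with complex multiplication -/

section cm

theorem trace_eq (h2 : p ≠ 2) (a b : ZMod p) :
    trace a b = ∑ x : ZMod p, quadraticChar (ZMod p) (x ^ 3 + a * x + b) := by
  have h := CM.card_curve h2 (fun x => x ^ 3 + a * x + b)
  unfold trace count
  push_cast
  rw [h]
  ring

theorem trace_T (h2 : p ≠ 2) : trace (1 : ZMod p) 0 = CM.T p 1 := by
  rw [trace_eq h2]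
  unfold CM.T
  simp

theorem trace_U (h2 : p ≠ 2) : trace (0 : ZMod p) 1 = CM.U p 1 := by
  rw [trace_eq h2]
  unfold CM.U
  simp

theorem trace_B (h2 : p ≠ 2) (h3 : (3 : ZMod p) ≠ 0) :
    trace (-10 / 3 : ZMod p) (-56 / 27) = CM.B p := by
  rw [trace_eq h2]
  unfold CM.B
  rw [CM.sum_affine one_ne_zero (-2 / 3) (fun x => (x + 2) * (x ^ 2 - 2))]
  apply Finset.sum_congr rfl
  intro x _
  have h27 : (27 : ZMod p) ≠ 0 := by
    have : (27 : ZMod p) = 3 ^ 3 := by norm_num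
    rw [this]; exact pow_ne_zero _ h3
  congr 1
  field_simp
  ring

theorem root_sq (h5 : 5 < p) {m : ℕ} (hm : 0 < m) {a b : ZMod p} {z : ℤ}
    (h : m * (4 * p - trace a b ^ 2) = z ^ 2) (ht : trace a b ≠ 0) :
    root m a b ^ 2 = -m := by
  have hm' : (0 : ℤ) < m := by exact_mod_cast hm
  have h0 : (0 : ℤ) ≤ 4 * p - trace a b ^ 2 := by
    have : (0 : ℤ) ≤ m * (4 * p - trace a b ^ 2) := by rw [h]; positivity
    exact nonneg_of_mul_nonneg_right this hm'
  have ht' : (trace a b : ZMod p) ≠ 0 := by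
    intro h1
    rw [ZMod.intCast_zmod_eq_zero_iff_dvd] at h1
    obtain ⟨k, hk⟩ := h1
    have hk0 : k ≠ 0 := by
      rintro rfl
      apply ht
      rw [hk, mul_zero]
    have hk1 : 1 ≤ k ^ 2 := by
      have : 0 < k ^ 2 := by positivity
      omega
    rw [hk] at h0
    have h5' : (5 : ℤ) < p := by exact_mod_cast h5
    have h6 : (p : ℤ) ^ 2 * 1 ≤ (p : ℤ) ^ 2 * k ^ 2 := mul_le_mul_of_nonneg_left hk1 (by positivity)
    rw [mul_pow] at h0
    nlinarith
  unfold root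
  rw [h, pow_two z, Int.sqrt_eq, div_pow]
  have e1 : (((z.natAbs : ℤ) : ZMod p)) ^ 2 = -m * (trace a b : ZMod p) ^ 2 := by
    rw [← Int.cast_pow, Int.natCast_natAbs, sq_abs, ← h]
    push_cast
    rw [ZMod.natCast_self]
    ring
  rw [e1]
  exact mul_div_cancel_right₀ _ (pow_ne_zero 2 ht')

theorem root_i (h5 : 5 < p) (h24 : p % 24 = 1) : (root 1 1 0 : ZMod p) ^ 2 = -1 := by
  have h2 : p ≠ 2 := by omega
  obtain ⟨G, hG⟩ := CM.T_sq (p := p) (by omega) (one_ne_zero (α := ZMod p))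
  have := root_sq (p := p) h5 (m := 1) (by norm_num) (a := 1) (b := 0) (z := G)
    (by rw [trace_T h2, ← hG]; push_cast; ring)
    (by rw [trace_T h2]; exact CM.T_ne_zero (by omega) (by omega) one_ne_zero)
  rw [this]
  push_cast
  ring

theorem root_r (h5 : 5 < p) (h24 : p % 24 = 1) : (root 3 0 1 : ZMod p) ^ 2 = -3 := by
  have h2 : p ≠ 2 := by omega
  obtain ⟨G, hG⟩ := CM.U_sq (p := p) h2 (by omega) (one_ne_zero (α := ZMod p))
  have := root_sq (p := p) h5 (m := 3) (by norm_num) (a := 0) (b := 1) (z := G)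
    (by rw [trace_U h2, ← hG]; push_cast; ring)
    (by rw [trace_U h2]; exact CM.U_ne_zero (by omega) (by omega) one_ne_zero)
  rw [this]
  push_cast
  ring

theorem root_z (h5 : 5 < p) (h24 : p % 24 = 1) (h3 : (3 : ZMod p) ≠ 0) :
    (root 2 (-10 / 3) (-56 / 27) : ZMod p) ^ 2 = -2 := by
  have h2 : p ≠ 2 := by omega
  obtain ⟨G, hG⟩ := CM.B_sq (p := p) (by omega)
  have := root_sq (p := p) h5 (m := 2) (by norm_num) (a := -10 / 3) (b := -56 / 27) (z := G)
    (by rw [trace_B h2 h3, ← hG]; push_cast; ring)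
    (by rw [trace_B h2 h3]; exact CM.B_ne_zero (by omega))
  rw [this]
  push_cast
  ring

theorem aa_eq {u l : ZMod p} (h3 : (3 : ZMod p) ≠ 0) :
    aa u l = -(u ^ 2 - u * l + l ^ 2) / 3 := by
  unfold aa
  field_simp
  ring

theorem factors {u l : ZMod p} (h3 : (3 : ZMod p) ≠ 0) (x : ZMod p) :
    x ^ 3 + aa u l * x + bb u l =
      (x - -(u + l) / 3) * (x - -(u + l) / 3 - u) * (x - -(u + l) / 3 - l) := by
  have h := sum0 (u := u) (l := l) h3
  unfold aa bb
  linear_combination (x ^ 2) * h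

/-- the sum for the differences `u`, `l` -/
noncomputable def S (u l : ZMod p) : ℤ :=
  ∑ x : ZMod p, quadraticChar (ZMod p) (x ^ 3 + aa u l * x + bb u l)

theorem LG_ne (h2 : p ≠ 2) {u l v k : ZMod p} (h : S u l ^ 2 ≠ S v k ^ 2) : LG u l ≠ LG v k := by
  intro h1
  unfold LG cnt at h1
  exact CM.card_ne h2 (f := fun x => x ^ 3 + aa u l * x + bb u l)
    (g := fun x => x ^ 3 + aa v k * x + bb v k) h (Nat.add_right_cancel h1)

theorem S_one (u : ZMod p) : S u (u * (-1)) = CM.T p (-u ^ 2) := by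
  unfold S CM.T
  apply Finset.sum_congr rfl
  intro x _
  have e : -(u + u * (-1)) / 3 = 0 := by ring
  congr 1
  unfold aa bb
  rw [e]
  ring

theorem S_three {u r : ZMod p} (h2 : (2 : ZMod p) ≠ 0) (h3 : (3 : ZMod p) ≠ 0)
    (hr : r ^ 2 = -3) : S u (u * ((1 + r) / 2)) = CM.U p (bb u (u * ((1 + r) / 2))) := by
  unfold S CM.U
  apply Finset.sum_congr rfl
  intro x _
  have e : aa u (u * ((1 + r) / 2)) = 0 := by
    rw [aa_eq h3]
    field_simp
    linear_combination (-u ^ 2) * hr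
  rw [e, zero_mul, add_zero]

theorem S_two {u s : ZMod p} (h2 : (2 : ZMod p) ≠ 0) (h3 : (3 : ZMod p) ≠ 0) (hu : u ≠ 0)
    (hs : s ^ 2 = 2) : S u (u * (3 + 2 * s)) ^ 2 = CM.B p ^ 2 := by
  have hm : u * (2 + s) / 2 ≠ 0 := by
    refine div_ne_zero (mul_ne_zero hu ?_) h2
    intro h
    apply h2
    linear_combination hs - (s - 2) * h
  unfold S CM.B
  rw [CM.sum_affine hm (-(u + u * (3 + 2 * s)) / 3 + u * (2 + s)),
    ← CM.sum_const_sq (pow_ne_zero 3 hm) (fun x => (x + 2) * (x ^ 2 - 2))]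
  congr 1
  apply Finset.sum_congr rfl
  intro x _
  congr 1
  rw [factors h3]
  have e1 : u * (2 + s) / 2 * x + (-(u + u * (3 + 2 * s)) / 3 + u * (2 + s)) -
      -(u + u * (3 + 2 * s)) / 3 = u * (2 + s) / 2 * (x + 2) := by
    field_simp
    ring
  have e2 : u * (2 + s) / 2 * (x + 2) - u = u * (2 + s) / 2 * (x + s) := by
    field_simp
    linear_combination (-1 : ZMod p) * hs
  have e3 : u * (2 + s) / 2 * (x + 2) - u * (3 + 2 * s) = u * (2 + s) / 2 * (x - s) := by
    field_simp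
    linear_combination hs
  rw [e1, e2, e3]
  linear_combination (-(u * (2 + s) / 2) ^ 3 * (x + 2)) * hs

/-- The three fibres with complex multiplication. -/
theorem cm_marks (h5 : 5 < p) (h24 : p % 24 = 1) {u i z r : ZMod p} (h2 : (2 : ZMod p) ≠ 0)
    (h3 : (3 : ZMod p) ≠ 0) (hu : u ≠ 0) (hi : i ^ 2 = -1) (hz : z ^ 2 = -2) (hr : r ^ 2 = -3) :
    Gd u (u * (-1)) ∧ Gd u (u * (3 + 2 * (i * z))) ∧ Gd u (u * ((1 + r) / 2)) ∧
      (LG u (u * (-1)) ≠ LG u (u * (3 + 2 * (i * z))) ∧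
        LG u (u * (-1)) ≠ LG u (u * ((1 + r) / 2)) ∧
        LG u (u * (3 + 2 * (i * z))) ≠ LG u (u * ((1 + r) / 2))) := by
  obtain ⟨s, hs'⟩ : ∃ s : ZMod p, s = i * z := ⟨_, rfl⟩
  have hs : s ^ 2 = 2 := by
    rw [hs', mul_pow, hi, hz]
    ring
  rw [← hs']
  have hp2 : p ≠ 2 := by omega
  have h4 : (4 : ZMod p) ≠ 0 := by
    have : (4 : ZMod p) = 2 ^ 2 := by norm_num
    rw [this]; exact pow_ne_zero _ h2
  have gd : ∀ l : ZMod p, l ≠ 0 → l ≠ 1 → Gd u (u * l) := by
    intro l x1 x2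
    refine ⟨mul_ne_zero hu x1, ?_⟩
    intro h
    apply x2
    have : u * (l - 1) = 0 := by linear_combination -h
    have := (mul_eq_zero.mp this).resolve_left hu
    linear_combination this
  have g1 : Gd u (u * (-1)) := by
    apply gd
    · simp
    · intro h
      apply h2
      linear_combination -h
  have g2 : Gd u (u * (3 + 2 * s)) := by
    apply gd
    · intro h
      apply one_ne_zero (α := ZMod p)
      linear_combination (3 - 2 * s) * h + 4 * hs
    · intro h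
      have h' : 2 * (1 + s) = 0 := by linear_combination h
      have h'' := (mul_eq_zero.mp h').resolve_left h2
      apply one_ne_zero (α := ZMod p)
      linear_combination (s - 1) * h'' - hs
  have g3 : Gd u (u * ((1 + r) / 2)) := by
    apply gd
    · intro h
      have h' : 1 + r = 0 := (div_eq_zero_iff.mp h).resolve_right h2
      apply h4
      linear_combination (1 - r) * h' + hr
    · intro h
      have h' : 1 + r = 1 * 2 := (div_eq_iff h2).mp h
      apply h4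
      linear_combination (-1 - r) * h' + hr
  have hb : bb u (u * ((1 + r) / 2)) ≠ 0 := by
    intro h
    apply disc_ne h3 hu g3.1 g3.2
    have e : aa u (u * ((1 + r) / 2)) = 0 := by
      rw [aa_eq h3]
      field_simp
      linear_combination (-u ^ 2) * hr
    rw [h, e]
    ring
  have hu2 : -u ^ 2 ≠ 0 := neg_ne_zero.mpr (pow_ne_zero 2 hu)
  refine ⟨g1, g2, g3, LG_ne hp2 ?_, LG_ne hp2 ?_, LG_ne hp2 ?_⟩
  · rw [S_one, S_two h2 h3 hu hs]
    exact CM.T_ne_B (by omega) hu2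
  · rw [S_one, S_three h2 h3 hr]
    exact CM.T_ne_U (by omega) (by omega) hu2 hb
  · rw [S_two h2 h3 hu hs, S_three h2 h3 hr]
    exact (CM.U_ne_B (by omega) hb).symm

end cm

theorem two_nsq : ¬ IsSquare (2 : ZMod 3) := by decide

theorem three_nsq (h24 : p % 24 = 17) : ¬ IsSquare (3 : ZMod p) := by
  have : Fact (Nat.Prime 3) := ⟨Nat.prime_three⟩
  have h := ZMod.exists_sq_eq_prime_iff_of_mod_four_eq_one (p := p) (q := 3) (by omega)
    (by norm_num)
  have h' : ¬ IsSquare ((p : ℕ) : ZMod 3) := by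
    have e : ((p : ℕ) : ZMod 3) = ((2 : ℕ) : ZMod 3) := by
      rw [ZMod.natCast_eq_natCast_iff]
      unfold Nat.ModEq
      omega
    rw [e]
    exact two_nsq
  rw [← h] at h'
  exact_mod_cast h'

theorem find_spec (h5 : 5 < p) {r₁ r₂ r₃ : (ZMod p)[X]} (hs : r₁ + r₂ + r₃ = 0)
    (hd : (r₃ - r₁).natDegree ≤ 1) (hu : ∃ u : ZMod p, r₂ - r₁ = C u)
    (hj : NonconstantJ (coefA r₁ r₂ r₃) (coefB r₁ r₂ r₃)) :
    Smooth (coefA r₁ r₂ r₃) (coefB r₁ r₂ r₃) (find r₁ r₂ r₃).1 ∧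
      Smooth (coefA r₁ r₂ r₃) (coefB r₁ r₂ r₃) ((find r₁ r₂ r₃).1 + 1) ∧
      points (coefA r₁ r₂ r₃) (coefB r₁ r₂ r₃) (find r₁ r₂ r₃).1 ≠
        points (coefA r₁ r₂ r₃) (coefB r₁ r₂ r₃) ((find r₁ r₂ r₃).1 + 1) ∧
      (find r₁ r₂ r₃).2 ≤ 3 * Nat.log 2 p + 4 := by
  have hp : p.Prime := Fact.out
  have h2 : (2 : ZMod p) ≠ 0 := by exact_mod_cast cast_ne (p := p) Nat.prime_two (by omega)
  have h3 : (3 : ZMod p) ≠ 0 := by exact_mod_cast cast_ne (p := p) Nat.prime_three (by omega)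
  have h5' : (5 : ZMod p) ≠ 0 := by exact_mod_cast cast_ne (p := p) Nat.prime_five (by omega)
  obtain ⟨hu0, ha0, hev⟩ := family_data h3 hs hd hu hj
  have hcard : Fintype.card (ZMod p) = p := ZMod.card p
  obtain ⟨u, hu'⟩ : ∃ u : ZMod p, u = (r₂ - r₁).coeff 0 := ⟨_, rfl⟩
  obtain ⟨a, ha'⟩ : ∃ a : ZMod p, a = (r₃ - r₁).coeff 1 := ⟨_, rfl⟩
  obtain ⟨b, hb'⟩ : ∃ b : ZMod p, b = (r₃ - r₁).coeff 0 := ⟨_, rfl⟩
  rw [← hu'] at hu0
  rw [← ha'] at ha0
  rw [← hu', ← ha', ← hb'] at hev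
  obtain ⟨A, hA⟩ : ∃ A : (ZMod p)[X], A = coefA r₁ r₂ r₃ := ⟨_, rfl⟩
  obtain ⟨B, hB⟩ : ∃ B : (ZMod p)[X], B = coefB r₁ r₂ r₃ := ⟨_, rfl⟩
  have hAB : ∀ c : ZMod p, A.eval (-b / a + c / a) = aa u c ∧
      B.eval (-b / a + c / a) = bb u c := by
    intro c
    obtain ⟨e1, e2, e3⟩ := hev (-b / a + c / a)
    have e4 : a * (-b / a + c / a) + b = c := by
      field_simp
      ring
    rw [e4] at e1 e3
    rw [hA, hB]
    unfold coefA coefB aa bb
    constructor
    · rw [eval_add, eval_add, eval_mul, eval_mul, eval_mul, e2, e3, e1]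
    · rw [eval_neg, eval_mul, eval_mul, e2, e3, e1]
  have hpts : ∀ c : ZMod p, points A B (-b / a + c / a) = LG u c := by
    intro c
    unfold points LG cnt
    rw [(hAB c).1, (hAB c).2]
  have hsm : ∀ c : ZMod p, c ≠ 0 → u ≠ c → Smooth A B (-b / a + c / a) := by
    intro c h1 h2
    unfold Smooth
    rw [(hAB c).1, (hAB c).2]
    exact disc_ne h3 hu0 h1 h2
  obtain ⟨m, hm⟩ : ∃ m : ZMod p, m = if p % 8 = 5 then 2 else 3 := ⟨_, rfl⟩
  obtain ⟨T, hT⟩ : ∃ T : ZMod p, T = (m + 1) ^ 2 / (4 * m) := ⟨_, rfl⟩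
  obtain ⟨s, hs'⟩ : ∃ s : ℕ × ℕ, s = if p % 8 = 7 then
      bisect (fun k => jacobiSym k p) (Nat.log 2 p + 1) 1 1 (p - 1)
    else if p % 24 = 17 then
      bisect (fun k => if jacobiSym (k - 1 : ℕ) p = -1 ∧ jacobiSym k p = -1 then 1 else 0)
        (Nat.log 2 p + 1) T.val 1 (p - 1)
    else (0, 0) := ⟨_, rfl⟩
  obtain ⟨l₁, hl₁⟩ : ∃ l₁ : ZMod p, l₁ = if p % 24 = 1 then u * (-1) else
    if p % 8 = 7 then u * (s.1 + 1 : ℕ) else
    if p % 8 = 3 then u * (9 / 25) else u * T := ⟨_, rfl⟩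
  obtain ⟨l₂, hl₂⟩ : ∃ l₂ : ZMod p, l₂ = if p % 24 = 1 then
      u * (3 + 2 * (root 1 1 0 * root 2 (-10 / 3) (-56 / 27))) else
    if p % 4 = 3 then u - l₁ else
    if p % 8 = 5 then u * (-1) else u * (s.1 : ZMod p) ^ 2 := ⟨_, rfl⟩
  obtain ⟨l₃, hl₃⟩ : ∃ l₃ : ZMod p,
    l₃ = if p % 24 = 1 then u * ((1 + root 3 0 1) / 2) else u * (9 / 25) := ⟨_, rfl⟩
  obtain ⟨c, hc⟩ : ∃ c : ℕ,
    c = if p % 24 = 1 then 3 else if p % 24 = 17 then 2 * s.2 else s.2 := ⟨_, rfl⟩
  obtain ⟨β, hβ⟩ : ∃ β : ZMod p, β = -b / a := ⟨_, rfl⟩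
  obtain ⟨w, hw⟩ : ∃ w : ℕ, w = (u / a).val := ⟨_, rfl⟩
  obtain ⟨q, hq⟩ : ∃ q : ℕ × ℕ, q = if p % 4 = 3 then
      (min (l₁ / a).val (l₂ / a).val, max (l₁ / a).val (l₂ / a).val)
    else pick w (l₁ / a).val (l₂ / a).val (l₃ / a).val := ⟨_, rfl⟩
  obtain ⟨N, hN⟩ : ∃ N : ℕ → ℤ, N = fun k : ℕ => (points A B (β + (k : ZMod p)) : ℤ) :=
    ⟨_, rfl⟩
  obtain ⟨r, hr⟩ : ∃ r : ℕ × ℕ, r = bisect N (Nat.log 2 p + 1) q.1 (N q.1) q.2 := ⟨_, rfl⟩
  have hfind : find r₁ r₂ r₃ = (β + r.1, c + (r.2 + 1)) := by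
    rw [hr, hN, hq, hw, hβ, hc, hl₃, hl₂, hl₁, hs', hT, hm, hA, hB, hu', ha', hb']
    rfl
  -- values of N, good parameters
  have hNv : ∀ c : ZMod p, N (c / a).val = LG u c := by
    intro c
    rw [hN]
    dsimp only
    rw [ZMod.natCast_zmod_val, hβ, hpts]
  have hNk : ∀ k : ℕ, N k = points A B (β + k) := by intro k; rw [hN]
  have hP : ∀ k : ℕ, 0 < k → k < p → k ≠ w → Smooth A B (β + k) := by
    intro k k1 k2 k3
    have e : (k : ZMod p) = (a * k) / a := by field_simp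
    have hk0 : (k : ZMod p) ≠ 0 := cast_ne_zero' k1 k2
    rw [e, hβ]
    apply hsm
    · exact mul_ne_zero ha0 hk0
    · intro h
      apply k3
      have : (k : ZMod p) = u / a := by
        rw [h]
        field_simp
      rw [hw, ← this, ZMod.val_natCast_of_lt k2]
  have hPc : ∀ c : ZMod p, Gd u c →
      0 < (c / a).val ∧ (c / a).val < p ∧ (c / a).val ≠ w := by
    rintro c ⟨h1, h6⟩
    refine ⟨?_, ZMod.val_lt _, ?_⟩
    · rw [Nat.pos_iff_ne_zero, Ne, ZMod.val_eq_zero]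
      exact div_ne_zero h1 ha0
    · intro h
      rw [hw] at h
      have h7 := ZMod.val_injective p h
      apply h6
      field_simp at h7
      exact h7.symm
  have hmain : q.1 < q.2 ∧ (0 < q.1 ∧ q.1 < p ∧ q.1 ≠ w) ∧ (0 < q.2 ∧ q.2 < p ∧ q.2 ≠ w) ∧
      (q.1 < w ↔ q.2 < w) ∧ N q.1 ≠ N q.2 ∧ c ≤ 2 * (Nat.log 2 p + 1) := by
    have h44 : p % 4 = 1 ∨ p % 4 = 3 := by
      have := hp.eq_two_or_odd
      omega
    rcases h44 with h4 | h4
    · -- p = 1 mod 4
      have h43 : p % 4 ≠ 3 := by omega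
      have hi : IsSquare (-1 : ZMod p) := by
        rw [ZMod.exists_sq_eq_neg_one_iff]
        exact h43
      rw [if_neg h43] at hq
      obtain ⟨G1, G2, G3, D, hcost⟩ : Gd u l₁ ∧ Gd u l₂ ∧ Gd u l₃ ∧
          (LG u l₁ ≠ LG u l₂ ∧ LG u l₁ ≠ LG u l₃ ∧ LG u l₂ ≠ LG u l₃) ∧
          c ≤ 2 * (Nat.log 2 p + 1) := by
        by_cases h24 : p % 24 = 1
        · rw [if_pos h24] at hl₁ hl₂ hl₃ hc
          obtain ⟨y1, y2, y3, y4⟩ := cm_marks h5 h24 h2 h3 hu0 (root_i h5 h24)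
            (root_z h5 h24 h3) (root_r h5 h24)
          rw [hl₁, hl₂, hl₃]
          refine ⟨y1, y2, y3, y4, ?_⟩
          have : 0 < Nat.log 2 p := Nat.log_pos (by norm_num) (by omega)
          omega
        rw [if_neg h24] at hl₁ hl₂ hl₃ hc
        have h817 : p % 8 = 5 ∨ p % 24 = 17 := by
          by_contra hcon
          have h9 : p % 24 = 9 := by omega
          have h9' : 3 ∣ p := by omega
          have := (Nat.prime_dvd_prime_iff_eq Nat.prime_three hp).mp h9'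
          omega
        rw [if_neg (by omega : ¬ p % 8 = 7), if_neg (by omega : ¬ p % 8 = 3)] at hl₁
        rw [if_neg h43] at hl₂
        rw [if_neg (by omega : ¬ p % 8 = 7)] at hs'
        have hmns : ¬ IsSquare m := by
          by_cases h8 : p % 8 = 5
          · rw [if_pos h8] at hm
            rw [hm]
            exact (five_data h8).1
          · rw [if_neg h8] at hm
            rw [hm]
            exact three_nsq (by omega)
        obtain ⟨g1, c1, n1, n2⟩ := count_T h2 h3 hi hmns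
        rw [← hT] at g1 c1 n1 n2
        obtain ⟨g3, c3⟩ := count_sixteen h2 h3 h5' hi
        -- the middle fibre
        obtain ⟨l, hl, g2, c2, hcost⟩ : ∃ l : ZMod p, l₂ = u * l ∧ Gd 1 l ∧ LG 1 l % 16 = 8 ∧
            c ≤ 2 * (Nat.log 2 p + 1) := by
          by_cases h8 : p % 8 = 5
          · rw [if_pos h8] at hl₂
            obtain ⟨m1, i, m2, m3⟩ := five_data h8
            have hm2 : ¬ IsSquare (-1 - 1 : ZMod p) := by
              have e : (-1 - 1 : ZMod p) = 2 * -1 := by ring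
              rw [e]
              exact nsq_mul_sq m1 hi (by simp)
            obtain ⟨g2, c2⟩ := count_eight h2 h3 hi m2 m3 hm2
            refine ⟨-1, hl₂, g2, c2, ?_⟩
            rw [if_neg (by omega)] at hs'
            rw [hc, if_neg (by omega), hs']
            exact Nat.zero_le _
          · have h17 : p % 24 = 17 := by omega
            have h81 : p % 8 = 1 := by omega
            rw [if_neg h8] at hl₂
            rw [if_pos h17] at hs'
            obtain ⟨m1, m2, m3⟩ := s_one h5 h81 n1 n2 hs'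
            obtain ⟨g2, c2⟩ := count_eight h2 h3 hi m1 rfl m2
            refine ⟨_, hl₂, g2, c2, ?_⟩
            rw [hc, if_pos h17]
            omega
        have gd : ∀ l : ZMod p, Gd 1 l → Gd u (u * l) := by
          rintro l ⟨x1, x2⟩
          refine ⟨mul_ne_zero hu0 x1, ?_⟩
          intro h
          apply x2
          have : u * (l - 1) = 0 := by linear_combination -h
          have := (mul_eq_zero.mp this).resolve_left hu0
          linear_combination -this
        refine ⟨by rw [hl₁]; exact gd _ g1, by rw [hl]; exact gd _ g2,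
          by rw [hl₃]; exact gd _ g3, ?_, hcost⟩
        rw [hl₁, hl, hl₃]
        rcases LG_scale (l := T) h2 h3 hu0 with ⟨q1, e1⟩ | ⟨q1, e1⟩
        · rcases LG_scale (l := l) h2 h3 hu0 with ⟨-, e2⟩ | ⟨q2, -⟩
          · rcases LG_scale (l := (9 / 25 : ZMod p)) h2 h3 hu0 with ⟨-, e3⟩ | ⟨q3, -⟩
            · rw [e1, e2, e3]
              refine ⟨by omega, by omega, by omega⟩
            · exact absurd q1 q3
          · exact absurd q1 q2
        · rcases LG_scale (l := l) h2 h3 hu0 with ⟨q2, -⟩ | ⟨-, e2⟩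
          · exact absurd q2 q1
          · rcases LG_scale (l := (9 / 25 : ZMod p)) h2 h3 hu0 with ⟨q3, -⟩ | ⟨-, e3⟩
            · exact absurd q3 q1
            · refine ⟨by omega, by omega, by omega⟩
      obtain ⟨z1, z2, z3, z4, z5⟩ := pick_spec (P := fun u => 0 < u ∧ u < p ∧ u ≠ w) (w := w)
        (u1 := (l₁ / a).val) (u2 := (l₂ / a).val) (u3 := (l₃ / a).val) N
        (by rw [hNv, hNv]; exact_mod_cast D.1) (by rw [hNv, hNv]; exact_mod_cast D.2.1)
        (by rw [hNv, hNv]; exact_mod_cast D.2.2) (hPc _ G1) (hPc _ G2) (hPc _ G3)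
      rw [← hq] at z1 z2 z3 z4 z5
      exact ⟨z1, z2, z3, z4, z5, hcost⟩
    · -- p = 3 mod 4
      have hi : ¬ IsSquare (-1 : ZMod p) := by
        rw [ZMod.exists_sq_eq_neg_one_iff]
        omega
      rw [if_neg (by omega : ¬ p % 24 = 1)] at hl₁ hl₂ hc
      rw [if_neg (by omega : ¬ p % 24 = 17)] at hc
      rw [if_pos h4] at hq hl₂
      have hrefl : LG u l₁ + LG u l₂ = 2 * p + 2 := by
        rw [hl₂, LG_refl h2 h3 hi, hcard]
      obtain ⟨G1, hne, hcost⟩ : Gd u l₁ ∧ LG u l₁ ≠ p + 1 ∧ c ≤ 2 * (Nat.log 2 p + 1) := by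
        rw [hc]
        by_cases h8 : p % 8 = 7
        · rw [if_pos h8] at hl₁ hs'
          obtain ⟨x1, x2, x3⟩ := s_seven h5 h8 hs'
          obtain ⟨g, c⟩ := count_seven h2 h3 hi hu0 x1 x2
          rw [← hl₁] at g c
          exact ⟨g, by omega, by omega⟩
        · have h83 : p % 8 = 3 := by omega
          rw [if_neg h8, if_pos h83] at hl₁
          rw [if_neg h8, if_neg (by omega)] at hs'
          obtain ⟨g, c⟩ := count_three h2 h3 h5' hi hu0
          rw [← hl₁] at g c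
          refine ⟨g, by omega, ?_⟩
          rw [hs']
          exact Nat.zero_le _
      have G2 : Gd u l₂ := by
        rw [hl₂]
        refine ⟨sub_ne_zero.mpr G1.2, ?_⟩
        intro h
        apply G1.1
        linear_combination h
      have D : LG u l₁ ≠ LG u l₂ := by omega
      have hside : (l₁ / a).val < w ↔ (l₂ / a).val < w := by
        have e : l₂ / a = u / a - l₁ / a := by rw [hl₂]; ring
        rw [e, hw]
        apply same_side (div_ne_zero G1.1 ha0)
        intro h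
        apply G1.2
        field_simp at h
        exact h
      obtain ⟨z1, z2, z3, z4, z5⟩ := pair_spec (P := fun u => 0 < u ∧ u < p ∧ u ≠ w) (w := w) N
        (l₁ / a).val (l₂ / a).val (by rw [hNv, hNv]; exact_mod_cast D) (hPc _ G1) (hPc _ G2)
        hside
      rw [hq]
      exact ⟨z1, z2, z3, z4, z5, hcost⟩
  obtain ⟨g1, g2, g3, g4, g5, hcost⟩ := hmain
  obtain ⟨b1, b2, b3, b4, b5⟩ := bisect_spec N (N q.1) (Nat.log 2 p + 1) q.1 q.2 g1
    (log_ok _ _ (by omega)) rfl g5.symm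
  rw [← hr] at b1 b2 b3 b4 b5
  have e1 : β + (r.1 : ZMod p) + 1 = β + ((r.1 + 1 : ℕ) : ZMod p) := by push_cast; ring
  rw [hfind, ← hA, ← hB]
  dsimp only
  refine ⟨hP _ (by omega) (by omega) (by omega), ?_, ?_, by omega⟩
  · rw [e1]
    exact hP _ (by omega) (by omega) (by omega)
  · rw [e1]
    intro h
    apply b4
    rw [← b3, hNk, hNk, h]

/-- **Legendre families.** For every prime `p > 5` and all polynomials `r₁`, `r₂`, `r₃` over the
field with `p` elements with sum zero, `r₂ - r₁` constant and `r₃ - r₁` of degree at most one, such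
that `y ^ 2 = (x - r₁)(x - r₂)(x - r₃)` has nonconstant `j`-invariant, the procedure `find`
returns, after at most `3 log₂ p + 4` calls, a
parameter `l` such that the fibres at `l` and `l + 1` are elliptic curves with different numbers of
points. -/
theorem result (p : ℕ) [Fact p.Prime] (h5 : 5 < p) (r₁ r₂ r₃ : (ZMod p)[X])
    (hs : r₁ + r₂ + r₃ = 0) (hu : ∃ u : ZMod p, r₂ - r₁ = C u)
    (hd : (r₃ - r₁).natDegree ≤ 1)
    (hj : NonconstantJ (coefA r₁ r₂ r₃) (coefB r₁ r₂ r₃)) :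
    Smooth (coefA r₁ r₂ r₃) (coefB r₁ r₂ r₃) (find r₁ r₂ r₃).1 ∧
      Smooth (coefA r₁ r₂ r₃) (coefB r₁ r₂ r₃) ((find r₁ r₂ r₃).1 + 1) ∧
      points (coefA r₁ r₂ r₃) (coefB r₁ r₂ r₃) (find r₁ r₂ r₃).1 ≠
        points (coefA r₁ r₂ r₃) (coefB r₁ r₂ r₃) ((find r₁ r₂ r₃).1 + 1) ∧
      (find r₁ r₂ r₃).2 ≤ 3 * Nat.log 2 p + 4 :=
  find_spec h5 hs hd hu hj

end Pool.Agent.Results.MP_09b6ec_lc.LegendreFamilies
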