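import Mathlib
import Pool.Agent.Lib.MP_09b6ec_lc.CM

/-!
# Non-isogenous consecutive fibres: bisection between two fibres with complex multiplication

Let `p > 3` be a prime which is not `11` modulo `12` and let `A`, `B` be polynomials over the field
with `p` elements. If `α` is a root of `A` but not of `B` and `β` is a root of `B` but not of `A`,
then the fibres `y ^ 2 = x ^ 3 + B(α)` and `y ^ 2 = x ^ 3 + A(β) x` have different numbers of
points. If one of the two arcs of the circle of residues between `α` and `β` contains no bad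
parameter (for instance if there is at most one bad parameter), bisection with point counts finds
two consecutive good fibres with different counts. For families of degree one, `α` and `β` are
given by the coefficients.
-/

namespace Pool.Agent.Results.MP_09b6ec_lc.LinearFamilies

open Polynomial Pool.Agent.Lib.IsoFib.CM

/-- Bisection. `bisect f k lo v hi`, called with `f lo = v` and `f hi ≠ v`, halves the interval
from `lo` to `hi` at most `k` times, keeping these two properties of its end points. It returns the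
last left end point and the number of values of `f` it has asked for. -/
def bisect (f : ℕ → ℤ) : ℕ → ℕ → ℤ → ℕ → ℕ × ℕ
  | 0, lo, _, _ => (lo, 0)
  | k + 1, lo, v, hi =>
    if hi ≤ lo + 1 then (lo, 0)
    else if f ((lo + hi) / 2) = v then
      ((bisect f k ((lo + hi) / 2) v hi).1, (bisect f k ((lo + hi) / 2) v hi).2 + 1)
    else ((bisect f k lo v ((lo + hi) / 2)).1, (bisect f k lo v ((lo + hi) / 2)).2 + 1)

theorem bisect_spec (f : ℕ → ℤ) (v : ℤ) : ∀ (k lo hi : ℕ), lo < hi → hi ≤ lo + 2 ^ k →
    f lo = v → f hi ≠ v →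
    lo ≤ (bisect f k lo v hi).1 ∧ (bisect f k lo v hi).1 < hi ∧
      f (bisect f k lo v hi).1 = v ∧ f ((bisect f k lo v hi).1 + 1) ≠ v ∧
      (bisect f k lo v hi).2 ≤ k := by
  intro k
  induction k with
  | zero =>
    intro lo hi h1 h2 h3 h4
    have : hi = lo + 1 := by simp at h2; omega
    subst this
    simp [bisect, h3, h4]
  | succ k ih =>
    intro lo hi h1 h2 h3 h4
    rw [bisect]
    split_ifs with h5 h6
    · have : hi = lo + 1 := by omega
      subst this
      simp [h3, h4]
    · rw [pow_succ] at h2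
      obtain ⟨a1, a2, a3, a4, a5⟩ := ih ((lo + hi) / 2) hi (by omega) (by omega) h6 h4
      refine ⟨by dsimp only; omega, a2, a3, a4, by dsimp only; omega⟩
    · rw [pow_succ] at h2
      obtain ⟨a1, a2, a3, a4, a5⟩ := ih lo ((lo + hi) / 2) (by omega) (by omega) h3 h6
      refine ⟨a1, by dsimp only; omega, a3, a4, by dsimp only; omega⟩

variable {p : ℕ} [Fact p.Prime]

/-- The number of points over the field with `p` elements of the fibre
`y ^ 2 = x ^ 3 + A(l) x + B(l)`, the point at infinity included. -/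
noncomputable def points (A B : (ZMod p)[X]) (l : ZMod p) : ℕ :=
  Nat.card {P : ZMod p × ZMod p // P.2 ^ 2 = P.1 ^ 3 + A.eval l * P.1 + B.eval l} + 1

/-- The fibre at `l` is an elliptic curve. -/
def Smooth (A B : (ZMod p)[X]) (l : ZMod p) : Prop :=
  4 * A.eval l ^ 3 + 27 * B.eval l ^ 2 ≠ 0

noncomputable instance (A B : (ZMod p)[X]) (l : ZMod p) : Decidable (Smooth A B l) :=
  inferInstanceAs (Decidable (4 * A.eval l ^ 3 + 27 * B.eval l ^ 2 ≠ 0))

/-- None of the parameters `l, l + 1, ..., l + m` is bad. -/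
def Clear (A B : (ZMod p)[X]) (l : ZMod p) (m : ℕ) : Prop :=
  ∀ k : ℕ, k ≤ m → Smooth A B (l + k)

/-- The procedure. It reads `p`, `A`, `B` and two parameters `α`, `β`, and returns a parameter and
the number of calls it has made, a call being the value of `points A B` at one parameter. It
bisects from `α` up to `β`; if this ends at a bad parameter, it bisects from `β` up to `α`. -/
noncomputable def find (A B : (ZMod p)[X]) (α β : ZMod p) : ZMod p × ℕ :=
  let m : ℕ := (β - α).val
  let N : ℕ → ℤ := fun k => points A B (α + k)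
  let r : ℕ × ℕ := bisect N (Nat.log 2 p + 1) 0 (N 0) m
  let s : ℕ × ℕ := bisect N (Nat.log 2 p + 1) m (N m) p
  if Smooth A B (α + r.1) ∧ Smooth A B (α + r.1 + 1) then (α + r.1, r.2 + 1)
  else (α + s.1, (r.2 + 1) + (s.2 + 1))

/-- **Two fibres with complex multiplication.** -/
theorem points_ne (h5 : 3 < p) (h12 : p % 12 ≠ 11) {A B : (ZMod p)[X]} {α β : ZMod p}
    (hα : A.eval α = 0) (hα' : B.eval α ≠ 0) (hβ : B.eval β = 0) (hβ' : A.eval β ≠ 0) :
    points A B α ≠ points A B β := by
  unfold points
  rw [hα, hβ]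
  intro h
  have h1 := Nat.add_right_cancel h
  revert h1
  apply card_ne (by omega) (f := fun x => x ^ 3 + 0 * x + B.eval α)
    (g := fun x => x ^ 3 + A.eval β * x + 0)
  have e1 : ∑ x : ZMod p, quadraticChar (ZMod p) (x ^ 3 + 0 * x + B.eval α) =
      U p (B.eval α) := by
    unfold U
    apply Finset.sum_congr rfl
    intro x _
    congr 1
    ring
  have e2 : ∑ x : ZMod p, quadraticChar (ZMod p) (x ^ 3 + A.eval β * x + 0) =
      T p (A.eval β) := by
    unfold T
    apply Finset.sum_congr rfl
    intro x _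
    congr 1
    ring
  rw [e1, e2]
  exact (T_ne_U h5 h12 hβ' hα').symm

theorem find_spec (h5 : 3 < p) (h12 : p % 12 ≠ 11) {A B : (ZMod p)[X]} {α β : ZMod p}
    (hα : A.eval α = 0) (hα' : B.eval α ≠ 0) (hβ : B.eval β = 0) (hβ' : A.eval β ≠ 0)
    (hc : Clear A B α (β - α).val ∨ Clear A B β (α - β).val) :
    Smooth A B (find A B α β).1 ∧ Smooth A B ((find A B α β).1 + 1) ∧
      points A B (find A B α β).1 ≠ points A B ((find A B α β).1 + 1) ∧
      (find A B α β).2 ≤ 2 * Nat.log 2 p + 4 := by
  have hp : p.Prime := Fact.out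
  have hne := points_ne h5 h12 hα hα' hβ hβ'
  obtain ⟨m, hm⟩ : ∃ m : ℕ, m = (β - α).val := ⟨_, rfl⟩
  obtain ⟨N, hN⟩ : ∃ N : ℕ → ℤ, N = fun k : ℕ => (points A B (α + (k : ZMod p)) : ℤ) :=
    ⟨_, rfl⟩
  obtain ⟨r, hr⟩ : ∃ r : ℕ × ℕ, r = bisect N (Nat.log 2 p + 1) 0 (N 0) m := ⟨_, rfl⟩
  obtain ⟨s, hs⟩ : ∃ s : ℕ × ℕ, s = bisect N (Nat.log 2 p + 1) m (N m) p := ⟨_, rfl⟩
  have hm1 : m < p := by rw [hm]; exact ZMod.val_lt _
  have hmβ : α + (m : ZMod p) = β := by
    rw [hm, ZMod.natCast_zmod_val]
    ring
  have hm0 : 0 < m := by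
    rw [Nat.pos_iff_ne_zero]
    rintro rfl
    apply hne
    rw [← hmβ]
    simp
  have hmp : (α - β).val = p - m := by
    have : α - β = ((p - m : ℕ) : ZMod p) := by
      rw [Nat.cast_sub hm1.le, ZMod.natCast_self, ← hmβ]
      ring
    rw [this, ZMod.val_natCast_of_lt (by omega)]
  have hNk : ∀ k : ℕ, N k = points A B (α + k) := by intro k; rw [hN]
  have n0 : N 0 = points A B α := by rw [hNk]; simp
  have nm : N m = points A B β := by rw [hNk, hmβ]
  have np : N p = points A B α := by rw [hNk]; simp
  have hlog : p < 2 ^ (Nat.log 2 p + 1) := Nat.lt_pow_succ_log_self (b := 2) one_lt_two p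
  obtain ⟨b1, b2, b3, b4, b5⟩ := bisect_spec N (N 0) (Nat.log 2 p + 1) 0 m hm0 (by omega) rfl
    (by rw [n0, nm]; exact_mod_cast hne.symm)
  obtain ⟨c1, c2, c3, c4, c5⟩ := bisect_spec N (N m) (Nat.log 2 p + 1) m p hm1 (by omega) rfl
    (by rw [np, nm]; exact_mod_cast hne)
  rw [← hr] at b1 b2 b3 b4 b5
  rw [← hs] at c1 c2 c3 c4 c5
  have hfind : find A B α β = if Smooth A B (α + r.1) ∧ Smooth A B (α + r.1 + 1) then
      (α + (r.1 : ZMod p), r.2 + 1) else (α + (s.1 : ZMod p), (r.2 + 1) + (s.2 + 1)) := by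
    rw [hs, hr, hN, hm]
    rfl
  rw [hfind]
  split_ifs with hif
  · refine ⟨hif.1, hif.2, ?_, by dsimp only; omega⟩
    intro h
    apply b4
    rw [← b3, hNk, hNk]
    push_cast
    rw [← add_assoc]
    exact_mod_cast h.symm
  · have hclear : Clear A B β (p - m) := by
      rcases hc with hc | hc
      · exfalso
        rw [← hm] at hc
        apply hif
        refine ⟨hc r.1 (by omega), ?_⟩
        have := hc (r.1 + 1) (by omega)
        push_cast at this
        rw [← add_assoc] at this
        exact this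
      · rwa [hmp] at hc
    have e : ∀ k : ℕ, m ≤ k → k ≤ p → Smooth A B (α + k) := by
      intro k k1 k2
      have := hclear (k - m) (by omega)
      have e2 : β + ((k - m : ℕ) : ZMod p) = α + k := by
        rw [Nat.cast_sub k1, ← hmβ]
        ring
      rwa [e2] at this
    have e3 : α + (s.1 : ZMod p) + 1 = α + ((s.1 + 1 : ℕ) : ZMod p) := by push_cast; ring
    refine ⟨e s.1 c1 c2.le, ?_, ?_, by dsimp only; omega⟩
    · dsimp only
      rw [e3]
      exact e (s.1 + 1) (by omega) (by omega)
    · dsimp only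
      rw [e3]
      intro h
      apply c4
      rw [← c3, hNk, hNk, h]

/-- If there is at most one bad parameter, one of the two arcs is clear. -/
theorem clear_of_one {A B : (ZMod p)[X]} {α β : ZMod p} (hsα : Smooth A B α)
    (hsβ : Smooth A B β) (hαβ : α ≠ β)
    (hb : ∀ l l' : ZMod p, ¬ Smooth A B l → ¬ Smooth A B l' → l = l') :
    Clear A B α (β - α).val ∨ Clear A B β (α - β).val := by
  have hp : p.Prime := Fact.out
  by_contra hcon
  push Not at hcon
  obtain ⟨h1, h2⟩ := hcon
  unfold Clear at h1 h2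
  push Not at h1 h2
  obtain ⟨k, hk, hk'⟩ := h1
  obtain ⟨j, hj, hj'⟩ := h2
  obtain ⟨m, hm⟩ : ∃ m : ℕ, m = (β - α).val := ⟨_, rfl⟩
  have hm1 : m < p := by rw [hm]; exact ZMod.val_lt _
  have hmβ : α + (m : ZMod p) = β := by
    rw [hm, ZMod.natCast_zmod_val]
    ring
  have hm0 : 0 < m := by
    rw [Nat.pos_iff_ne_zero]
    rintro rfl
    apply hαβ
    rw [← hmβ]
    simp
  have hmp : (α - β).val = p - m := by
    have : α - β = ((p - m : ℕ) : ZMod p) := by
      rw [Nat.cast_sub hm1.le, ZMod.natCast_self, ← hmβ]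
      ring
    rw [this, ZMod.val_natCast_of_lt (by omega)]
  rw [← hm] at hk
  rw [hmp] at hj
  have hk0 : k ≠ 0 := by
    rintro rfl
    apply hk'
    simpa using hsα
  have hkm : k ≠ m := by
    rintro rfl
    apply hk'
    rwa [hmβ]
  have hj0 : j ≠ 0 := by
    rintro rfl
    apply hj'
    simpa using hsβ
  have hjm : j ≠ p - m := by
    rintro rfl
    apply hj'
    have : β + ((p - m : ℕ) : ZMod p) = α := by
      rw [Nat.cast_sub hm1.le, ZMod.natCast_self, ← hmβ]
      ring
    rwa [this]
  have h3 := hb _ _ hk' hj'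
  have h4 : (k : ZMod p) = ((m + j : ℕ) : ZMod p) := by
    push_cast
    have := h3
    rw [← hmβ, add_assoc] at this
    exact add_left_cancel this
  rw [ZMod.natCast_eq_natCast_iff'] at h4
  rw [Nat.mod_eq_of_lt (by omega), Nat.mod_eq_of_lt (by omega)] at h4
  omega

theorem four_ne (h5 : 3 < p) : (4 : ZMod p) ≠ 0 := by
  have h2 := two_ne (p := p) (by omega)
  have : (4 : ZMod p) = 2 * 2 := by norm_num
  rw [this]
  exact mul_ne_zero h2 h2

theorem tseven_ne (h5 : 3 < p) : (27 : ZMod p) ≠ 0 := by
  have hp : p.Prime := Fact.out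
  have h3 : (3 : ZMod p) ≠ 0 := by
    intro h
    have : ((3 : ℕ) : ZMod p) = 0 := by exact_mod_cast h
    rw [ZMod.natCast_eq_zero_iff] at this
    have := (Nat.prime_dvd_prime_iff_eq hp Nat.prime_three).mp this
    omega
  have : (27 : ZMod p) = 3 ^ 3 := by norm_num
  rw [this]
  exact pow_ne_zero 3 h3

/-- **Bisection between two fibres with complex multiplication.** Let `p > 3` be a prime which is
not `11` modulo `12`, `A`, `B` polynomials over the field with `p` elements, `α` a root of `A`,
`β` a root of `B`, not common roots (for `A = a₁ X + a₀`, `B = b₁ X + b₀` these are `-a₀ / a₁` and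
`-b₀ / b₁`). The fibres at `α` and `β` have different numbers of points. If there is at most one
bad parameter, or, more generally, if all of `α, α + 1, ..., β` or all of `β, β + 1, ..., α` are
good parameters, then `find A B α β` returns, after at most `2 log₂ p + 4` calls, a parameter `l`
such that the fibres at `l` and `l + 1` are elliptic curves with different numbers of points. -/
theorem result (p : ℕ) [Fact p.Prime] (h5 : 3 < p) (h12 : p % 12 ≠ 11) (A B : (ZMod p)[X])
    (α β : ZMod p) (hα : A.eval α = 0) (hα' : B.eval α ≠ 0) (hβ : B.eval β = 0)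
    (hβ' : A.eval β ≠ 0) :
    points A B α ≠ points A B β ∧
    ((∀ l l' : ZMod p, ¬ Smooth A B l → ¬ Smooth A B l' → l = l') →
      Clear A B α (β - α).val ∨ Clear A B β (α - β).val) ∧
    (Clear A B α (β - α).val ∨ Clear A B β (α - β).val →
      Smooth A B (find A B α β).1 ∧ Smooth A B ((find A B α β).1 + 1) ∧
        points A B (find A B α β).1 ≠ points A B ((find A B α β).1 + 1) ∧
        (find A B α β).2 ≤ 2 * Nat.log 2 p + 4) := by
  have hsm : Smooth A B α := by
    unfold Smooth
    rw [hα]
    have := mul_ne_zero (tseven_ne h5) (pow_ne_zero 2 hα')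
    simpa using this
  have hsm' : Smooth A B β := by
    unfold Smooth
    rw [hβ]
    have := mul_ne_zero (four_ne h5) (pow_ne_zero 3 hβ')
    simpa using this
  have hne : α ≠ β := by
    rintro rfl
    exact hβ' hα
  exact ⟨points_ne h5 h12 hα hα' hβ hβ', fun hb => clear_of_one hsm hsm' hne hb,
    fun hc => find_spec h5 h12 hα hα' hβ hβ' hc⟩

end Pool.Agent.Results.MP_09b6ec_lc.LinearFamilies
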